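import Pool.Agent.Lib_helper82.BR.Defs

/-! # MP_45e720_ag, BrodyRigidity: the ball lemma and the periods -/

set_option autoImplicit false

open Filter Topology Metric Set

namespace Pool.Agent.BR

section dyn

variable {X : Type} [MetricSpace X] {K : Set (ℂ → X)} {r₁ ε r : ℝ}

/-- jumps along a chain -/
theorem CM.chain {g h : ℂ → X} {s : ℂ → ℂ} {Ω : Set ℂ} (hs : CM ε r r₁ g h s Ω)
    (hΩ : Convex ℝ Ω) {z' : ℂ} (hz' : z' ∈ Ω) (n : ℕ) :
    ∀ z ∈ Ω, ‖z - z'‖ ≤ n * r → ‖s z - s z'‖ ≤ n * r₁ := by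
  induction n with
  | zero =>
    intro z hz h1
    have h2 : z = z' := by
      rw [Nat.cast_zero, zero_mul] at h1
      exact sub_eq_zero.1 (norm_le_zero_iff.1 h1)
    rw [h2, sub_self, norm_zero, Nat.cast_zero, zero_mul]
  | succ n ih =>
    intro z hz h1
    push_cast at h1 ⊢
    have hn : (0 : ℝ) < (n : ℝ) + 1 := by positivity
    obtain ⟨c, hc⟩ : ∃ c : ℝ, c = n / ((n : ℝ) + 1) := ⟨_, rfl⟩
    have hc0 : 0 ≤ c := by rw [hc]; positivity
    have hc1 : c ≤ 1 := by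
      rw [hc, div_le_one hn]
      linarith
    have hcn : c * ((n : ℝ) + 1) = n := by rw [hc]; field_simp
    have hcn' : (1 - c) * ((n : ℝ) + 1) = 1 := by linarith
    obtain ⟨y, hy⟩ : ∃ y : ℂ, y = z' + c • (z - z') := ⟨_, rfl⟩
    have hyΩ : y ∈ Ω := by
      rw [hy]
      exact hΩ.add_smul_sub_mem hz' hz ⟨hc0, hc1⟩
    have h2 : ‖y - z'‖ ≤ n * r := by
      have h3 : y - z' = c • (z - z') := by rw [hy]; abel
      rw [h3, norm_smul, Real.norm_of_nonneg hc0]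
      calc c * ‖z - z'‖ ≤ c * (((n : ℝ) + 1) * r) := mul_le_mul_of_nonneg_left h1 hc0
        _ = c * ((n : ℝ) + 1) * r := by ring
        _ = n * r := by rw [hcn]
    have h3 : ‖z - y‖ ≤ r := by
      have h4 : z - y = (1 - c) • (z - z') := by
        rw [hy, sub_smul, one_smul]
        abel
      have hc1' : 0 ≤ 1 - c := by linarith
      rw [h4, norm_smul, Real.norm_of_nonneg hc1']
      calc (1 - c) * ‖z - z'‖ ≤ (1 - c) * (((n : ℝ) + 1) * r) :=
            mul_le_mul_of_nonneg_left h1 hc1'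
        _ = (1 - c) * ((n : ℝ) + 1) * r := by ring
        _ = r := by rw [hcn', one_mul]
    have h5 := ih y hyΩ h2
    have h6 := hs.2 z hz y hyΩ h3
    have h7 : s z - s z' = (s z - s y) + (s y - s z') := by ring
    rw [h7]
    have := norm_add_le (s z - s y) (s y - s z')
    linarith

theorem CM.bound {g h : ℂ → X} {s : ℂ → ℂ} {Ω : Set ℂ} (hr : 0 < r) (hr₁ : 0 < r₁)
    (hs : CM ε r r₁ g h s Ω) (hΩ : Convex ℝ Ω) {z z' : ℂ} (hz : z ∈ Ω) (hz' : z' ∈ Ω) :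
    ‖s z - s z'‖ ≤ (‖z - z'‖ / r + 1) * r₁ := by
  have h1 := hs.chain hΩ hz' ⌈‖z - z'‖ / r⌉₊ z hz (by
    rw [← div_le_iff₀ hr]
    exact Nat.le_ceil _)
  have h2 : (⌈‖z - z'‖ / r⌉₊ : ℝ) ≤ ‖z - z'‖ / r + 1 :=
    (Nat.ceil_lt_add_one (by positivity)).le
  exact h1.trans (mul_le_mul_of_nonneg_right h2 hr₁.le)

/-- limits of matches -/
theorem lim_match (D : Dyn K r₁) (U : Ultrafilter ℕ) {g h : ℕ → ℂ → X} {g' h' : ℂ → X}
    (hh : ∀ n, h n ∈ K) (hg' : ∀ z, Tendsto (fun n => g n z) U (𝓝 (g' z)))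
    (hh' : ∀ z, Tendsto (fun n => h n z) U (𝓝 (h' z))) (s : ℕ → ℂ → ℂ) (Ω : ℕ → Set ℂ)
    (hCM : ∀ n, CM ε r r₁ (g n) (h n) (s n) (Ω n)) (Ω' : Set ℂ)
    (hΩ : ∀ z ∈ Ω', ∀ᶠ n in (U : Filter ℕ), z ∈ Ω n)
    (hb : ∀ z ∈ Ω', ∃ B : ℝ, ∀ᶠ n in (U : Filter ℕ), ‖s n z‖ ≤ B) :
    ∃ s' : ℂ → ℂ, (∀ z ∈ Ω', Tendsto (fun n => s n z) U (𝓝 (s' z))) ∧
      CM ε r r₁ g' h' s' Ω' := by
  have h1 : ∀ z ∈ Ω', ∃ y : ℂ, Tendsto (fun n => s n z) U (𝓝 y) := by
    intro z hz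
    obtain ⟨B, hB⟩ := hb z hz
    have h2 := (isCompact_closedBall (0 : ℂ) B).ultrafilter_le_nhds (U.map fun n => s n z) (by
      rw [Ultrafilter.coe_map, le_principal_iff, mem_map]
      filter_upwards [hB] with n hn
      exact mem_closedBall_zero_iff.2 hn)
    obtain ⟨y, -, hy⟩ := h2
    exact ⟨y, hy⟩
  choose! s' hs' using h1
  have hhs : ∀ z ∈ Ω', Tendsto (fun n => h n (s n z)) U (𝓝 (h' (s' z))) := by
    intro z hz
    rw [tendsto_iff_dist_tendsto_zero, Metric.tendsto_nhds]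
    intro η hη
    obtain ⟨δ, hδ, hδ'⟩ := D.equi (η / 2) (by positivity)
    have h2 := (Metric.tendsto_nhds.1 (hs' z hz)) δ hδ
    have h3 := (Metric.tendsto_nhds.1 (hh' (s' z))) (η / 2) (by positivity)
    filter_upwards [h2, h3] with n h4 h5
    rw [Real.dist_0_eq_abs, abs_of_nonneg dist_nonneg]
    have h6 := hδ' (h n) (hh n) (s n z) (s' z) (by rwa [dist_eq_norm] at h4)
    have := dist_triangle (h n (s n z)) (h n (s' z)) (h' (s' z))
    linarith
  refine ⟨s', hs', ?_, ?_⟩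
  · intro z hz
    refine le_of_tendsto ((hg' z).dist (hhs z hz)) ?_
    filter_upwards [hΩ z hz] with n hn
    exact (hCM n).1 z hn
  · intro z hz z' hz' hzz
    refine le_of_tendsto ((hs' z hz).sub (hs' z' hz')).norm ?_
    filter_upwards [hΩ z hz, hΩ z' hz'] with n hn hn'
    exact (hCM n).2 z hn z' hn' hzz

/-- the radial projection to the disc of radius `ρ` -/
noncomputable def rad (ρ : ℝ) (z : ℂ) : ℂ := if ‖z‖ ≤ ρ then z else ((ρ / ‖z‖ : ℝ) : ℂ) * z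

theorem rad_norm {ρ : ℝ} (hρ : 0 < ρ) (z : ℂ) : ‖rad ρ z‖ ≤ ρ := by
  rw [rad]
  split_ifs with h
  · exact h
  · rw [not_le] at h
    have hz : 0 < ‖z‖ := hρ.trans h
    rw [norm_mul, Complex.norm_real, Real.norm_of_nonneg (by positivity),
      div_mul_cancel₀ _ hz.ne']

theorem rad_out {ρ : ℝ} (hρ : 0 < ρ) {z : ℂ} (hz : ρ < ‖z‖) :
    ‖rad ρ z‖ = ρ ∧ ‖z - rad ρ z‖ = ‖z‖ - ρ := by
  have hz0 : 0 < ‖z‖ := hρ.trans hz
  rw [rad, if_neg (not_le.2 hz)]
  constructor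
  · rw [norm_mul, Complex.norm_real, Real.norm_of_nonneg (by positivity),
      div_mul_cancel₀ _ hz0.ne']
  · have h1 : z - ((ρ / ‖z‖ : ℝ) : ℂ) * z = ((1 - ρ / ‖z‖ : ℝ) : ℂ) * z := by
      push_cast
      ring
    have h2 : 0 ≤ 1 - ρ / ‖z‖ := by
      rw [sub_nonneg, div_le_one hz0]
      exact hz.le
    rw [h1, norm_mul, Complex.norm_real, Real.norm_of_nonneg h2, sub_mul, one_mul,
      div_mul_cancel₀ _ hz0.ne']

/-- the obtuse angle property -/
theorem rad_obtuse {ρ : ℝ} (hρ : 0 < ρ) (z y : ℂ) (hy : ‖y‖ ≤ ρ) :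
    inner ℝ (z - rad ρ z) (y - rad ρ z) ≤ 0 := by
  by_cases h : ‖z‖ ≤ ρ
  · rw [rad, if_pos h, sub_self, inner_zero_left]
  · rw [not_le] at h
    have hz0 : 0 < ‖z‖ := hρ.trans h
    obtain ⟨h1, h2⟩ := rad_out hρ h
    obtain ⟨p, hp⟩ : ∃ p, p = rad ρ z := ⟨_, rfl⟩
    rw [← hp] at h1 ⊢
    have h3 : z - p = (‖z‖ / ρ - 1) • p := by
      have h4 : p = (ρ / ‖z‖) • z := by
        rw [hp, rad, if_neg (not_le.2 h)]
        rfl
      have h5 : z = (‖z‖ / ρ) • p := by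
        rw [h4, smul_smul]
        have : ‖z‖ / ρ * (ρ / ‖z‖) = 1 := by field_simp
        rw [this, one_smul]
      rw [sub_smul, one_smul, ← h5]
    have h4 : 0 ≤ ‖z‖ / ρ - 1 := by
      rw [sub_nonneg, le_div_iff₀ hρ, one_mul]
      exact h.le
    have h5 : inner ℝ p (y - p) ≤ 0 := by
      rw [inner_sub_right, real_inner_self_eq_norm_sq]
      have h6 := real_inner_le_norm p y
      have h7 : ‖p‖ * ‖y‖ ≤ ρ * ρ := by
        rw [h1]
        exact mul_le_mul_of_nonneg_left hy hρ.le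
      rw [h1] at *
      nlinarith
    rw [h3, real_inner_smul_left]
    exact mul_nonpos_of_nonneg_of_nonpos h4 h5

theorem rad_lip {ρ : ℝ} (hρ : 0 < ρ) (z z' : ℂ) : ‖rad ρ z - rad ρ z'‖ ≤ ‖z - z'‖ := by
  obtain ⟨p, hp⟩ : ∃ p, p = rad ρ z := ⟨_, rfl⟩
  obtain ⟨p', hp'⟩ : ∃ p', p' = rad ρ z' := ⟨_, rfl⟩
  have h1 := rad_obtuse hρ z p' (by rw [hp']; exact rad_norm hρ z')
  have h2 := rad_obtuse hρ z' p (by rw [hp]; exact rad_norm hρ z)
  rw [← hp] at h1
  rw [← hp'] at h2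
  rw [← hp, ← hp']
  have h3 : inner ℝ (z - p) (p' - p) =
      -(inner ℝ (z - z') (p - p') - ‖p - p'‖ ^ 2 + inner ℝ (z' - p') (p - p')) := by
    have e1 : z - p = ((z - z') - (p - p')) + (z' - p') := by ring
    have e2 : p' - p = -(p - p') := by ring
    rw [e1, e2, inner_neg_right, inner_add_left ((z - z') - (p - p')),
      ← real_inner_self_eq_norm_sq (p - p'), inner_sub_left (z - z') (p - p') (p - p')]
  have h4 := real_inner_le_norm (z - z') (p - p')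
  have h5 : ‖p - p'‖ * ‖p - p'‖ ≤ ‖z - z'‖ * ‖p - p'‖ := by nlinarith
  by_cases h6 : ‖p - p'‖ = 0
  · rw [h6]
    exact norm_nonneg _
  · exact le_of_mul_le_mul_right h5 (lt_of_le_of_ne (norm_nonneg _) (Ne.symm h6))

/-- extension of a match from a disc -/
theorem CM.extend (D : Dyn K r₁) {δ : ℝ}
    (hδ : ∀ g ∈ K, ∀ z z' : ℂ, ‖z - z'‖ ≤ δ → dist (g z) (g z') ≤ ε / 2)
    (hinj : ∀ h ∈ K, ∀ w w' : ℂ, ‖w - w'‖ ≤ r₁ → dist (h w) (h w') ≤ 3 * ε → ‖w - w'‖ ≤ r₁ / 8)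
    (heq : ∀ g ∈ K, ∀ z z' : ℂ, ‖z - z'‖ ≤ r → dist (g z) (g z') ≤ ε)
    {g h : ℂ → X} (hg : g ∈ K) (hh : h ∈ K) {s : ℂ → ℂ} {ρ : ℝ} (hρ : 0 < ρ)
    (hs : CM ε r r₁ g h s (closedBall 0 ρ))
    (hw : ∀ z, ‖z‖ = ρ → ∃ w, ‖w - s z‖ ≤ r₁ / 8 ∧ dist (g z) (h w) ≤ ε / 2) :
    ∃ s' : ℂ → ℂ, s' 0 = s 0 ∧ CM ε r r₁ g h s' (closedBall 0 (ρ + δ)) := by
  choose! w hw1 hw2 using hw
  have hr₁ := D.pos
  refine ⟨fun z => if ‖z‖ ≤ ρ then s z else w (rad ρ z), ?_, ?_, ?_⟩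
  · simp only [norm_zero]
    rw [if_pos hρ.le]
  · intro z hz
    rw [mem_closedBall_zero_iff] at hz
    simp only
    split_ifs with h1
    · exact hs.1 z (mem_closedBall_zero_iff.2 h1)
    · rw [not_le] at h1
      obtain ⟨h2, h3⟩ := rad_out hρ h1
      have h4 := hδ g hg z (rad ρ z) (by rw [h3]; linarith)
      have h5 := hw2 (rad ρ z) h2
      have := dist_triangle (g z) (g (rad ρ z)) (h (w (rad ρ z)))
      linarith
  · intro z _ z' _ hzz
    have near : ∀ z, ‖(if ‖z‖ ≤ ρ then s z else w (rad ρ z)) - s (rad ρ z)‖ ≤ r₁ / 8 := by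
      intro z
      split_ifs with h1
      · rw [rad, if_pos h1, sub_self, norm_zero]
        positivity
      · rw [not_le] at h1
        exact hw1 _ (rad_out hρ h1).1
    have h1 := near z
    have h2 := near z'
    have hp := mem_closedBall_zero_iff.2 (rad_norm hρ z)
    have hp' := mem_closedBall_zero_iff.2 (rad_norm hρ z')
    have hpp : ‖rad ρ z - rad ρ z'‖ ≤ r := (rad_lip hρ z z').trans hzz
    have h3 : ‖s (rad ρ z) - s (rad ρ z')‖ ≤ r₁ / 8 := by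
      refine hinj h hh _ _ (hs.2 _ hp _ hp' hpp) ?_
      have h4 := hs.1 _ hp
      have h5 := hs.1 _ hp'
      have h6 := heq g hg _ _ hpp
      have h7 := dist_triangle (h (s (rad ρ z))) (g (rad ρ z)) (h (s (rad ρ z')))
      have h8 := dist_triangle (g (rad ρ z)) (g (rad ρ z')) (h (s (rad ρ z')))
      rw [dist_comm] at h4
      linarith
    have h4 : (if ‖z‖ ≤ ρ then s z else w (rad ρ z)) - (if ‖z'‖ ≤ ρ then s z' else w (rad ρ z')) =
        ((if ‖z‖ ≤ ρ then s z else w (rad ρ z)) - s (rad ρ z)) +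
        (s (rad ρ z) - s (rad ρ z')) -
        ((if ‖z'‖ ≤ ρ then s z' else w (rad ρ z')) - s (rad ρ z')) := by ring
    simp only
    rw [h4]
    have h5 := norm_sub_le (((if ‖z‖ ≤ ρ then s z else w (rad ρ z)) - s (rad ρ z)) +
        (s (rad ρ z) - s (rad ρ z')))
        ((if ‖z'‖ ≤ ρ then s z' else w (rad ρ z')) - s (rad ρ z'))
    have h6 := norm_add_le ((if ‖z‖ ≤ ρ then s z else w (rad ρ z)) - s (rad ρ z))
        (s (rad ρ z) - s (rad ρ z'))
    linarith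

/-- BALL: the ball lemma -/
theorem ball_lemma (D : Dyn K r₁) (hε : 0 < ε) (hr : 0 < r) (h0 : HP0 K ε r r₁)
    (hC : HPC K ε r r₁)
    (hinj : ∀ h ∈ K, ∀ w w' : ℂ, ‖w - w'‖ ≤ r₁ → dist (h w) (h w') ≤ 3 * ε → ‖w - w'‖ ≤ r₁ / 8)
    (heq : ∀ g ∈ K, ∀ z z' : ℂ, ‖z - z'‖ ≤ r → dist (g z) (g z') ≤ ε) :
    ∃ R > 0, ∀ g ∈ K, ∀ h ∈ K, ∀ s : ℂ → ℂ, CM ε r r₁ g h s (closedBall 0 R) →
      ∃ a b : ℂ, (∀ z, g z = h (a * z + b)) ∧ ‖b - s 0‖ ≤ r₁ / 8 := by
  by_contra hcon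
  push Not at hcon
  have hr₁ := D.pos
  obtain ⟨δ₀, hδ₀, hδ₀'⟩ := D.equi (ε / 2) (by positivity)
  obtain ⟨δ, hδ⟩ : ∃ δ, δ = δ₀ / 2 := ⟨_, rfl⟩
  have hδ0 : 0 < δ := by rw [hδ]; positivity
  have hδ' : ∀ g ∈ K, ∀ z z' : ℂ, ‖z - z'‖ ≤ δ → dist (g z) (g z') ≤ ε / 2 := fun g hg z z' h =>
    (hδ₀' g hg z z' (by linarith)).le
  obtain ⟨U, hU⟩ : ∃ U : Ultrafilter ℕ, (U : Filter ℕ) ≤ atTop :=
    ⟨Ultrafilter.of atTop, Ultrafilter.of_le _⟩
  have key : ∀ n : ℕ, ∃ g ∈ K, ∃ h ∈ K, ∃ (s : ℂ → ℂ) (ρ : ℝ) (z₀ : ℂ), (n : ℝ) + 1 ≤ ρ ∧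
      ‖z₀‖ = ρ ∧ CM ε r r₁ g h s (closedBall 0 ρ) ∧
      ∀ w, ‖w - s z₀‖ ≤ r₁ / 8 → ε / 2 < dist (g z₀) (h w) := by
    intro n
    have hn : (0 : ℝ) < n + 1 := by positivity
    obtain ⟨g, hg, h, hh, s, hs, hno⟩ := hcon (n + 1) hn
    obtain ⟨S, hS⟩ : ∃ S : Set ℝ, S = {ρ | (n : ℝ) + 1 ≤ ρ ∧ ∃ s' : ℂ → ℂ, s' 0 = s 0 ∧
      CM ε r r₁ g h s' (closedBall 0 ρ)} := ⟨_, rfl⟩
    have hSne : S.Nonempty := ⟨n + 1, by rw [hS]; exact ⟨le_rfl, s, rfl, hs⟩⟩
    have hSb : BddAbove S := by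
      by_contra hnb
      rw [not_bddAbove_iff] at hnb
      have h1 : ∀ m : ℕ, ∃ (ρ : ℝ) (s' : ℂ → ℂ), (m : ℝ) < ρ ∧ s' 0 = s 0 ∧
          CM ε r r₁ g h s' (closedBall 0 ρ) := by
        intro m
        obtain ⟨ρ, hρ, hρm⟩ := hnb m
        rw [hS] at hρ
        obtain ⟨-, s', hs'0, hs'⟩ := hρ
        exact ⟨ρ, s', hρm, hs'0, hs'⟩
      choose ρ s' hρ hs'0 hs' using h1
      have hev : ∀ z : ℂ, ∀ᶠ m in (U : Filter ℕ), z ∈ closedBall (0 : ℂ) (ρ m) := by
        intro z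
        obtain ⟨M, hM⟩ := exists_nat_ge ‖z‖
        filter_upwards [hU (eventually_ge_atTop M)] with m hm
        rw [mem_closedBall_zero_iff]
        have h2 : (M : ℝ) ≤ m := by exact_mod_cast hm
        linarith [hρ m]
      obtain ⟨s'', hs''1, hs''2⟩ := lim_match D U (g := fun _ => g) (h := fun _ => h)
        (g' := g) (h' := h) (fun _ => hh) (fun z => tendsto_const_nhds)
        (fun z => tendsto_const_nhds) s' (fun m => closedBall 0 (ρ m)) hs' univ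
        (fun z _ => hev z) (fun z _ => by
          refine ⟨‖s 0‖ + (‖z - 0‖ / r + 1) * r₁, ?_⟩
          filter_upwards [hev z, hev 0] with m hm hm0
          have h2 := (hs' m).bound hr hr₁ (convex_closedBall 0 (ρ m)) hm hm0
          rw [hs'0] at h2
          have h3 : s' m z = s 0 + (s' m z - s 0) := by ring
          rw [h3]
          have := norm_add_le (s 0) (s' m z - s 0)
          linarith)
      obtain ⟨a, b, hab, hb⟩ := hC g hg h hh s'' hs''2
      have h2 : s'' 0 = s 0 := by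
        have h3 := hs''1 0 (mem_univ _)
        simp only [hs'0] at h3
        exact (tendsto_nhds_unique h3 tendsto_const_nhds)
      rw [h2] at hb
      exact absurd hb (not_le.2 (hno a b hab))
    obtain ⟨ρ, hρS, hρ⟩ := exists_lt_of_lt_csSup hSne (show sSup S - δ < sSup S by linarith)
    have hρS' := hρS
    rw [hS] at hρS
    obtain ⟨hρn, s', hs'0, hs'⟩ := hρS
    have hρ0 : 0 < ρ := hn.trans_le hρn
    by_contra hno'
    push Not at hno'
    have hw : ∀ z, ‖z‖ = ρ → ∃ w, ‖w - s' z‖ ≤ r₁ / 8 ∧ dist (g z) (h w) ≤ ε / 2 :=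
      fun z hz => hno' g hg h hh s' ρ z hρn hz hs'
    obtain ⟨s'', hs''0, hs''⟩ := hs'.extend D hδ' hinj heq hg hh hρ0 hw
    have h1 : ρ + δ ∈ S := by
      rw [hS]
      exact ⟨by linarith, s'', by rw [hs''0, hs'0], hs''⟩
    have h2 := le_csSup hSb h1
    linarith
  choose g hg h hh s ρ z₀ hρ hz₀ hs hno using key
  have hρ0 : ∀ n, 0 < ρ n := fun n => by
    have : (0 : ℝ) < n + 1 := by positivity
    linarith [hρ n]
  -- recentre
  obtain ⟨g', hg'K, hg'⟩ := D.lim U (fun n z => g n (z + z₀ n)) (fun n => D.tr _ (hg n) _)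
  obtain ⟨h', hh'K, hh'⟩ := D.lim U (fun n z => h n (z + s n (z₀ n))) (fun n => D.tr _ (hh n) _)
  obtain ⟨θ, hθ, hθl⟩ : ∃ θ ∈ sphere (0 : ℂ) 1,
      Tendsto (fun n => z₀ n / (ρ n : ℂ)) U (𝓝 θ) := by
    have h1 := (isCompact_sphere (0 : ℂ) 1).ultrafilter_le_nhds
      (U.map fun n => z₀ n / (ρ n : ℂ)) (by
      rw [Ultrafilter.coe_map, le_principal_iff, mem_map]
      refine Filter.Eventually.of_forall fun n => ?_
      simp only [mem_preimage]
      rw [mem_sphere_zero_iff_norm, norm_div, Complex.norm_real,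
        Real.norm_of_nonneg (hρ0 n).le, hz₀, div_self (hρ0 n).ne'])
    obtain ⟨θ, h2, h3⟩ := h1
    exact ⟨θ, h2, h3⟩
  have hθ1 : ‖θ‖ = 1 := by rwa [mem_sphere_zero_iff_norm] at hθ
  have hCM : ∀ n, CM ε r r₁ (fun z => g n (z + z₀ n)) (fun z => h n (z + s n (z₀ n)))
      (fun z => s n (z + z₀ n) - s n (z₀ n)) {z | z + z₀ n ∈ closedBall (0 : ℂ) (ρ n)} := by
    intro n
    constructor
    · intro z hz
      have h1 := (hs n).1 (z + z₀ n) hz
      simpa using h1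
    · intro z hz z' hz' hzz
      have h1 := (hs n).2 (z + z₀ n) hz (z' + z₀ n) hz' (by simpa using hzz)
      simpa using h1
  have h0mem : ∀ n, (0 : ℂ) ∈ {z | z + z₀ n ∈ closedBall (0 : ℂ) (ρ n)} := by
    intro n
    simp only [mem_setOf_eq, zero_add, mem_closedBall_zero_iff]
    exact (hz₀ n).le
  have hconv : ∀ n, Convex ℝ {z | z + z₀ n ∈ closedBall (0 : ℂ) (ρ n)} := by
    intro n
    have h1 : {z | z + z₀ n ∈ closedBall (0 : ℂ) (ρ n)} = closedBall (-z₀ n) (ρ n) := by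
      ext z
      simp only [mem_setOf_eq, mem_closedBall_iff_norm, sub_zero, sub_neg_eq_add]
    rw [h1]
    exact convex_closedBall _ _
  have hev : ∀ z ∈ insert 0 {z : ℂ | (z * (starRingEnd ℂ) θ).re < 0},
      ∀ᶠ n in (U : Filter ℕ), z ∈ {z | z + z₀ n ∈ closedBall (0 : ℂ) (ρ n)} := by
    intro z hz
    rcases hz with hz | hz
    · rw [hz]
      exact Eventually.of_forall h0mem
    · have hz' : (z * (starRingEnd ℂ) θ).re < 0 := hz
      obtain ⟨c, hc⟩ : ∃ c, c = -(z * (starRingEnd ℂ) θ).re / 2 := ⟨_, rfl⟩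
      have hc0 : 0 < c := by rw [hc]; linarith
      have h1 : Tendsto (fun n => (z * (starRingEnd ℂ) (z₀ n / (ρ n : ℂ))).re) U
          (𝓝 (z * (starRingEnd ℂ) θ).re) := by
        have h2 : Continuous fun x : ℂ => (z * (starRingEnd ℂ) x).re := by
          exact Complex.continuous_re.comp (continuous_const.mul Complex.continuous_conj)
        exact (h2.tendsto θ).comp hθl
      have h2 := h1.eventually (gt_mem_nhds (show (z * (starRingEnd ℂ) θ).re < -c by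
        rw [hc]; linarith))
      obtain ⟨M, hM⟩ := exists_nat_ge (‖z‖ ^ 2 / (2 * c))
      filter_upwards [h2, hU (eventually_ge_atTop M)] with n h3 h4
      simp only [mem_setOf_eq, mem_closedBall_zero_iff]
      have h5 : (M : ℝ) ≤ n := by exact_mod_cast h4
      have h6 : ‖z‖ ^ 2 ≤ 2 * c * ρ n := by
        have h7 : ‖z‖ ^ 2 / (2 * c) ≤ ρ n := by linarith [hρ n]
        rwa [div_le_iff₀ (by positivity), mul_comm] at h7
      have h7 : (z * (starRingEnd ℂ) (z₀ n)).re =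
          ρ n * (z * (starRingEnd ℂ) (z₀ n / (ρ n : ℂ))).re := by
        have h8 : z * (starRingEnd ℂ) (z₀ n) =
            (ρ n : ℂ) * (z * (starRingEnd ℂ) (z₀ n / (ρ n : ℂ))) := by
          rw [map_div₀, Complex.conj_ofReal]
          have : (ρ n : ℂ) ≠ 0 := by exact_mod_cast (hρ0 n).ne'
          field_simp
        rw [h8, Complex.re_ofReal_mul]
      have h8 : (z * (starRingEnd ℂ) (z₀ n)).re ≤ -(c * ρ n) := by
        rw [h7]
        have := mul_le_mul_of_nonneg_left h3.le (hρ0 n).le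
        linarith
      have h9 : ‖z + z₀ n‖ ^ 2 ≤ ρ n ^ 2 := by
        have h10 : ‖z + z₀ n‖ ^ 2 = ‖z‖ ^ 2 + ‖z₀ n‖ ^ 2 + 2 * (z * (starRingEnd ℂ) (z₀ n)).re := by
          rw [← Complex.normSq_eq_norm_sq, ← Complex.normSq_eq_norm_sq,
            ← Complex.normSq_eq_norm_sq, Complex.normSq_add]
        rw [h10, hz₀]
        linarith
      exact (pow_le_pow_iff_left₀ (norm_nonneg _) (hρ0 n).le two_ne_zero).1 h9
  obtain ⟨σ, hσ1, hσ2⟩ := lim_match D U (g := fun n z => g n (z + z₀ n))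
    (h := fun n z => h n (z + s n (z₀ n))) (g' := g') (h' := h') (fun n => D.tr _ (hh n) _)
    hg' hh' (fun n z => s n (z + z₀ n) - s n (z₀ n))
    (fun n => {z | z + z₀ n ∈ closedBall (0 : ℂ) (ρ n)}) hCM
    (insert 0 {z : ℂ | (z * (starRingEnd ℂ) θ).re < 0}) hev (fun z hz => by
      refine ⟨(‖z - 0‖ / r + 1) * r₁, ?_⟩
      filter_upwards [hev z hz] with n hn
      have h1 := (hCM n).bound hr hr₁ (hconv n) hn (h0mem n)
      simpa using h1)
  have hσ0 : σ 0 = 0 := by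
    have h1 := hσ1 0 (mem_insert _ _)
    simp only [zero_add, sub_self] at h1
    exact tendsto_nhds_unique h1 tendsto_const_nhds
  obtain ⟨w, hw1, hw2⟩ := h0 g' hg'K h' hh'K θ σ hθ1 hσ2
  rw [hσ0, sub_zero] at hw1
  have h1 : Tendsto (fun n => dist (g n (0 + z₀ n)) (h n (w + s n (z₀ n)))) U
      (𝓝 (dist (g' 0) (h' w))) := (hg' 0).dist (hh' w)
  have h2 : ε / 2 ≤ dist (g' 0) (h' w) := by
    refine ge_of_tendsto' h1 fun n => ?_
    rw [zero_add]
    exact (hno n (w + s n (z₀ n)) (by simpa using hw1)).le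
  rw [hw2, dist_self] at h2
  linarith

/-- one period close to a multiple of `x` -/
theorem one_period (D : Dyn K r₁) (hε : 0 < ε) (hrr : r ≤ r₁) {R : ℝ}
    (hR : ∀ g ∈ K, ∀ h ∈ K, ∀ s : ℂ → ℂ, CM ε r r₁ g h s (closedBall 0 R) →
      ∃ a b : ℂ, (∀ z, g z = h (a * z + b)) ∧ ‖b - s 0‖ ≤ r₁ / 8) {f : ℂ → X} (hf : f ∈ K)
    (x : ℂ) : ∃ (k : ℕ) (p : ℂ), 0 < k ∧ ‖p - k * x‖ ≤ r₁ / 8 ∧ ∀ z, f (z + p) = f z := by
  have hr₁ := D.pos
  obtain ⟨U, hU⟩ : ∃ U : Ultrafilter ℕ, (U : Filter ℕ) ≤ atTop :=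
    ⟨Ultrafilter.of atTop, Ultrafilter.of_le _⟩
  obtain ⟨g', hg'K, hg'⟩ := D.lim U (fun n z => f (z + n * x)) (fun n => D.tr _ hf _)
  obtain ⟨δ, hδ, hδ'⟩ := D.equi (ε / 6) (by positivity)
  obtain ⟨t, -, htf, htc⟩ := finite_cover_balls_of_compact (isCompact_closedBall (0 : ℂ) R) hδ
  have h1 : ∀ᶠ n : ℕ in (U : Filter ℕ), ∀ y ∈ t, dist (f (y + n * x)) (g' y) < ε / 6 := by
    rw [Filter.eventually_all_finite htf]
    intro y _
    exact (Metric.tendsto_nhds.1 (hg' y)) (ε / 6) (by positivity)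
  have h2 : ∀ᶠ n : ℕ in (U : Filter ℕ), ∀ z ∈ closedBall (0 : ℂ) R,
      dist (f (z + n * x)) (g' z) ≤ ε / 2 := by
    filter_upwards [h1] with n hn z hz
    obtain ⟨y, hy, hzy⟩ := mem_iUnion₂.1 (htc hz)
    have hzy' : ‖z - y‖ < δ := by rwa [mem_ball_iff_norm] at hzy
    have h3 := hδ' f hf (z + n * x) (y + n * x) (by simpa using hzy')
    have h4 := hδ' g' hg'K z y hzy'
    have h5 := hn y hy
    have h6 := dist_triangle (f (z + n * x)) (f (y + n * x)) (g' z)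
    have h7 := dist_triangle (f (y + n * x)) (g' y) (g' z)
    rw [dist_comm (g' z)] at h4
    linarith
  obtain ⟨i, hi⟩ := h2.exists
  obtain ⟨j, hj, hij⟩ := (h2.and (hU (eventually_gt_atTop i))).exists
  have hCM : CM ε r r₁ (fun z => f (z + i * x)) (fun z => f (z + j * x)) (fun z => z)
      (closedBall 0 R) := by
    constructor
    · intro z hz
      have h3 := hi z hz
      have h4 := hj z hz
      have := dist_triangle (f (z + i * x)) (g' z) (f (z + j * x))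
      rw [dist_comm] at h4
      linarith
    · intro z _ z' _ hzz
      exact hzz.trans hrr
  obtain ⟨a, b, hab, hb⟩ := hR _ (D.tr f hf _) _ (D.tr f hf _) _ hCM
  rw [sub_zero] at hb
  obtain ⟨b', hb'⟩ : ∃ b', b' = b + j * x - a * (i * x) := ⟨_, rfl⟩
  have h3 : ∀ z, f z = f (a * z + b') := by
    intro z
    have h4 := hab (z - i * x)
    simp only [sub_add_cancel] at h4
    rw [h4, hb']
    congr 1
    ring
  have ha : a = 1 := by
    by_contra ha
    have ha' : 1 - a ≠ 0 := sub_ne_zero.2 (Ne.symm ha)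
    obtain ⟨ε', hε', hinj⟩ := D.inj (r₁ / 2) (by positivity)
    obtain ⟨y, hy⟩ : ∃ y, y = b' / (1 - a) := ⟨_, rfl⟩
    obtain ⟨w, hw⟩ : ∃ w, w = (r₁ : ℂ) / (1 - a) := ⟨_, rfl⟩
    have h5 : a * (y + w) + b' = y + a * w := by
      rw [hy]
      field_simp
      ring
    have h6 : ‖(y + w) - (y + a * w)‖ = r₁ := by
      have h7 : (y + w) - (y + a * w) = (r₁ : ℂ) := by
        rw [hw]
        field_simp
        ring
      rw [h7, Complex.norm_real, Real.norm_of_nonneg hr₁.le]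
    have h7 := hinj f hf (y + w) (y + a * w) h6.le (by
      rw [h3 (y + w), h5, dist_self]
      exact hε')
    rw [h6] at h7
    linarith
  refine ⟨j - i, b', Nat.sub_pos_of_lt hij, ?_, ?_⟩
  · have h4 : b' - ((j - i : ℕ) : ℂ) * x = b := by
      rw [hb', ha, Nat.cast_sub (le_of_lt hij)]
      ring
    rw [h4]
    exact hb
  · intro z
    have := h3 z
    rw [ha, one_mul] at this
    exact this.symm

/-- PER: two independent periods -/
theorem periods (D : Dyn K r₁) (hε : 0 < ε) (hr : 0 < r) (hrr : r ≤ r₁)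
    (h0 : HP0 K ε r r₁) (hC : HPC K ε r r₁)
    (hinj : ∀ h ∈ K, ∀ w w' : ℂ, ‖w - w'‖ ≤ r₁ → dist (h w) (h w') ≤ 3 * ε → ‖w - w'‖ ≤ r₁ / 8)
    (heq : ∀ g ∈ K, ∀ z z' : ℂ, ‖z - z'‖ ≤ r → dist (g z) (g z') ≤ ε) :
    ∀ f ∈ K, ∃ p₁ p₂ : ℂ, LinearIndependent ℝ ![p₁, p₂] ∧ (∀ z, f (z + p₁) = f z) ∧
      ∀ z, f (z + p₂) = f z := by
  have hr₁ := D.pos
  obtain ⟨R, -, hR⟩ := ball_lemma D hε hr h0 hC hinj heq
  intro f hf
  obtain ⟨k, p, hk, hp, hpf⟩ := one_period D hε hrr hR hf (r₁ : ℂ)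
  obtain ⟨k', p', hk', hp', hpf'⟩ := one_period D hε hrr hR hf (r₁ * Complex.I)
  refine ⟨p, p', ?_, hpf, hpf'⟩
  have hk1 : (1 : ℝ) ≤ k := by exact_mod_cast hk
  have hk1' : (1 : ℝ) ≤ k' := by exact_mod_cast hk'
  have e1 := (Complex.abs_re_le_norm (p - k * (r₁ : ℂ))).trans hp
  have e2 := (Complex.abs_im_le_norm (p - k * (r₁ : ℂ))).trans hp
  have e3 := (Complex.abs_re_le_norm (p' - k' * (r₁ * Complex.I))).trans hp'
  have e4 := (Complex.abs_im_le_norm (p' - k' * (r₁ * Complex.I))).trans hp'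
  simp only [Complex.sub_re, Complex.sub_im, Complex.mul_re, Complex.mul_im, Complex.ofReal_re,
    Complex.ofReal_im, Complex.natCast_re, Complex.natCast_im, Complex.I_re, Complex.I_im,
    mul_zero, zero_mul, sub_zero, add_zero, zero_add, mul_one] at e1 e2 e3 e4
  rw [abs_le] at e1 e2 e3 e4
  have f1 : 7 / 8 * r₁ ≤ p.re := by nlinarith
  have f4 : 7 / 8 * r₁ ≤ p'.im := by nlinarith
  rw [LinearIndependent.pair_iff]
  intro a b hab
  have g1 := congrArg Complex.re hab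
  have g2 := congrArg Complex.im hab
  simp only [Complex.add_re, Complex.add_im, Complex.smul_re, Complex.smul_im, smul_eq_mul,
    Complex.zero_re, Complex.zero_im] at g1 g2
  have hdet : 0 < p.re * p'.im - p.im * p'.re := by
    have h1 : 7 / 8 * r₁ * (7 / 8 * r₁) ≤ p.re * p'.im :=
      mul_le_mul f1 f4 (by positivity) (le_trans (by positivity) f1)
    have h2 : p.im * p'.re ≤ r₁ / 8 * (r₁ / 8) := by
      refine (le_abs_self _).trans ?_
      rw [abs_mul]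
      refine mul_le_mul ?_ ?_ (abs_nonneg _) (by positivity)
      · rw [abs_le]
        constructor <;> linarith
      · rw [abs_le]
        constructor <;> linarith
    nlinarith
  have ha : a * (p.re * p'.im - p.im * p'.re) = 0 := by
    linear_combination p'.im * g1 - p'.re * g2
  have hb : b * (p.re * p'.im - p.im * p'.re) = 0 := by
    linear_combination p.re * g2 - p.im * g1
  exact ⟨(mul_eq_zero.1 ha).resolve_right hdet.ne', (mul_eq_zero.1 hb).resolve_right hdet.ne'⟩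

end dyn

/-- LAT: the lattice of two periods -/
theorem lattice {X : Type} {f : ℂ → X} {p₁ p₂ : ℂ} (hp : LinearIndependent ℝ ![p₁, p₂])
    (h1 : ∀ z, f (z + p₁) = f z) (h2 : ∀ z, f (z + p₂) = f z) :
    ∃ (Λ : Submodule ℤ ℂ) (_ : DiscreteTopology Λ) (_ : IsZLattice ℝ Λ),
      ∀ l ∈ Λ, ∀ z, f (z + l) = f z := by
  let b : Module.Basis (Fin 2) ℝ ℂ := basisOfLinearIndependentOfCardEqFinrank hp (by
    rw [Fintype.card_fin, Complex.finrank_real_complex])
  have hb : ∀ i, b i = ![p₁, p₂] i := fun i => by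
    simp only [b, coe_basisOfLinearIndependentOfCardEqFinrank]
  refine ⟨Submodule.span ℤ (Set.range b), inferInstance, inferInstance, ?_⟩
  intro l hl
  induction hl using Submodule.span_induction with
  | mem x hx =>
    obtain ⟨i, rfl⟩ := hx
    intro z
    rw [hb]
    fin_cases i
    · exact h1 z
    · exact h2 z
  | zero =>
    intro z
    rw [add_zero]
  | add x y _ _ hx hy =>
    intro z
    rw [← add_assoc, hy, hx]
  | smul a x _ hx =>
    intro z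
    have h3 : ∀ n : ℕ, ∀ z, f (z + n • x) = f z := by
      intro n
      induction n with
      | zero => intro z; rw [zero_smul, add_zero]
      | succ n ih =>
        intro z
        rw [succ_nsmul, ← add_assoc, hx, ih]
    rcases Int.eq_nat_or_neg a with ⟨n, rfl | rfl⟩
    · rw [natCast_zsmul]
      exact h3 n z
    · rw [neg_smul, natCast_zsmul]
      have := h3 n (z + -(n • x))
      rw [neg_add_cancel_right] at this
      exact this.symm

/-- AFF: an entire function with bounded derivative is affine -/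
theorem affine_of_bdd {τ : ℂ → ℂ} (h : Differentiable ℂ τ) {C : ℝ}
    (hC : ∀ z, ‖deriv τ z‖ ≤ C) : ∃ a b : ℂ, ∀ z, τ z = a * z + b := by
  have h1 : Differentiable ℂ (deriv τ) := by
    have h2 : DifferentiableOn ℂ (deriv τ) univ :=
      h.differentiableOn.deriv isOpen_univ
    exact differentiableOn_univ.1 h2
  have h2 : Bornology.IsBounded (range (deriv τ)) := by
    rw [isBounded_iff_forall_norm_le]
    exact ⟨C, by rintro _ ⟨z, rfl⟩; exact hC z⟩
  have h3 : ∀ z, deriv τ z = deriv τ 0 := fun z => h1.apply_eq_apply_of_bounded h2 z 0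
  refine ⟨deriv τ 0, τ 0, fun z => ?_⟩
  have h4 : ∀ z, HasDerivAt (fun z => τ z - deriv τ 0 * z) 0 z := by
    intro z
    have h5 : HasDerivAt (fun z : ℂ => deriv τ 0 * z) (deriv τ 0) z := by
      simpa using (hasDerivAt_id z).const_mul (deriv τ 0)
    have h6 := (h z).hasDerivAt.sub h5
    rw [h3 z, sub_self] at h6
    exact h6
  have h5 : (fun z => τ z - deriv τ 0 * z) z = (fun z => τ z - deriv τ 0 * z) 0 :=
    is_const_of_deriv_eq_zero (fun z => (h4 z).differentiableAt) (fun z => (h4 z).deriv) z 0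
  simp only [mul_zero, sub_zero] at h5
  rw [← h5]
  ring

end Pool.Agent.BR
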