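import Pool.Agent.Lib_helper82.BR.Defs

/-! # MP_45e720_ag, BrodyRigidity: local inverses and local matches with uniform radius -/

set_option autoImplicit false

open Filter Topology Metric Set

namespace Pool.Agent.BR

/-- inverse function theorem in one complex variable, with explicit radii -/
theorem inv_one {f : ℂ → ℂ} {w₀ a : ℂ} {r₀ : ℝ} (hr : 0 < r₀)
    (hf : ∀ w ∈ ball w₀ r₀, DifferentiableAt ℂ f w) (ha : a ≠ 0)
    (hd : ∀ w ∈ ball w₀ r₀, ‖deriv f w - a‖ ≤ ‖a‖ / 2) :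
    (∀ w ∈ ball w₀ r₀, ∀ w' ∈ ball w₀ r₀, ‖a‖ / 2 * ‖w - w'‖ ≤ ‖f w - f w'‖) ∧
    ∃ g : ℂ → ℂ, ∀ y ∈ ball (f w₀) (‖a‖ * r₀ / 8),
      AnalyticAt ℂ g y ∧ g y ∈ ball w₀ r₀ ∧ f (g y) = y := by
  have ha' : 0 < ‖a‖ := norm_pos_iff.2 ha
  have hlow : ∀ w ∈ ball w₀ r₀, ∀ w' ∈ ball w₀ r₀, ‖a‖ / 2 * ‖w - w'‖ ≤ ‖f w - f w'‖ := by
    intro w hw w' hw'
    have h1 : ∀ x ∈ ball w₀ r₀, HasDerivWithinAt (fun x => f x - a * x) (deriv f x - a)
        (ball w₀ r₀) x := by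
      intro x hx
      have h2 : HasDerivAt (fun x : ℂ => a * x) a x := by
        simpa using (hasDerivAt_id x).const_mul a
      exact ((hf x hx).hasDerivAt.sub h2).hasDerivWithinAt
    have h3 := (convex_ball w₀ r₀).norm_image_sub_le_of_norm_hasDerivWithin_le h1 hd hw' hw
    have h4 : a * (w - w') = (f w - f w') - ((f w - a * w) - (f w' - a * w')) := by ring
    have h5 : ‖a‖ * ‖w - w'‖ ≤ ‖f w - f w'‖ + ‖a‖ / 2 * ‖w - w'‖ := by
      rw [← norm_mul, h4]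
      exact (norm_sub_le _ _).trans (by linarith)
    linarith
  refine ⟨hlow, ?_⟩
  have hsurj : ball (f w₀) (‖a‖ * r₀ / 8) ⊆ f '' closedBall w₀ (r₀ / 2) := by
    have h1 : DiffContOnCl ℂ f (ball w₀ (r₀ / 2)) := by
      have h2 : DifferentiableOn ℂ f (closure (ball w₀ (r₀ / 2))) := by
        intro w hw
        rw [closure_ball w₀ (by positivity)] at hw
        exact (hf w (closedBall_subset_ball (by linarith) hw)).differentiableWithinAt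
      exact h2.diffContOnCl
    have h3 : ∀ z ∈ sphere w₀ (r₀ / 2), ‖a‖ * r₀ / 4 ≤ ‖f z - f w₀‖ := by
      intro z hz
      have h4 := hlow z (sphere_subset_closedBall.trans (closedBall_subset_ball (by linarith)) hz)
        w₀ (mem_ball_self hr)
      rw [mem_sphere_iff_norm] at hz
      rw [hz] at h4
      calc ‖a‖ * r₀ / 4 = ‖a‖ / 2 * (r₀ / 2) := by ring
        _ ≤ _ := h4
    have h5 : ∃ᶠ z in 𝓝 w₀, f z ≠ f w₀ := by
      have h6 : ∀ᶠ z in 𝓝[≠] w₀, f z ≠ f w₀ := by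
        have h7 : ball w₀ r₀ ∈ 𝓝[≠] w₀ := mem_nhdsWithin_of_mem_nhds (ball_mem_nhds w₀ hr)
        filter_upwards [h7, self_mem_nhdsWithin] with z hz hne heq
        have h8 := hlow z hz w₀ (mem_ball_self hr)
        rw [heq, sub_self, norm_zero] at h8
        have h9 : 0 < ‖z - w₀‖ := norm_pos_iff.2 (sub_ne_zero.2 hne)
        have : 0 < ‖a‖ / 2 * ‖z - w₀‖ := by positivity
        linarith
      exact h6.frequently.filter_mono nhdsWithin_le_nhds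
    have h10 := h1.ball_subset_image_closedBall (by positivity) h3 h5
    have h11 : ‖a‖ * r₀ / 4 / 2 = ‖a‖ * r₀ / 8 := by ring
    rwa [h11] at h10
  choose! g hg using fun y (hy : y ∈ ball (f w₀) (‖a‖ * r₀ / 8)) => hsurj hy
  have hgm : ∀ y ∈ ball (f w₀) (‖a‖ * r₀ / 8), g y ∈ ball w₀ r₀ := fun y hy =>
    closedBall_subset_ball (by linarith) (hg y hy).1
  have hcont : ∀ y ∈ ball (f w₀) (‖a‖ * r₀ / 8), ContinuousAt g y := by
    intro y hy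
    rw [Metric.continuousAt_iff]
    intro ε hε
    obtain ⟨δ, hδ, hδ'⟩ := Metric.isOpen_iff.1 isOpen_ball y hy
    refine ⟨min δ (‖a‖ / 2 * ε), by positivity, fun y' hy' => ?_⟩
    have h1 : y' ∈ ball (f w₀) (‖a‖ * r₀ / 8) := hδ' (lt_of_lt_of_le hy' (min_le_left _ _))
    have h2 := hlow (g y') (hgm y' h1) (g y) (hgm y hy)
    rw [(hg y' h1).2, (hg y hy).2] at h2
    have h3 : ‖y' - y‖ < ‖a‖ / 2 * ε := by
      rw [← dist_eq_norm]
      exact lt_of_lt_of_le hy' (min_le_right _ _)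
    rw [dist_eq_norm]
    have h4 : ‖a‖ / 2 * ‖g y' - g y‖ < ‖a‖ / 2 * ε := lt_of_le_of_lt h2 h3
    exact lt_of_mul_lt_mul_left h4 (by positivity)
  have hder : ∀ y ∈ ball (f w₀) (‖a‖ * r₀ / 8), DifferentiableAt ℂ g y := by
    intro y hy
    have h1 : deriv f (g y) ≠ 0 := by
      intro h0
      have h2 := hd (g y) (hgm y hy)
      rw [h0, zero_sub, norm_neg] at h2
      linarith
    have h3 := HasDerivAt.of_local_left_inverse (hcont y hy) (hf _ (hgm y hy)).hasDerivAt h1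
      (by
        filter_upwards [isOpen_ball.mem_nhds hy] with y' hy'
        exact (hg y' hy').2)
    exact h3.differentiableAt
  refine ⟨g, fun y hy => ⟨?_, hgm y hy, (hg y hy).2⟩⟩
  have : DifferentiableOn ℂ g (ball (f w₀) (‖a‖ * r₀ / 8)) := fun y hy =>
    (hder y hy).differentiableWithinAt
  exact this.analyticAt (isOpen_ball.mem_nhds hy)

section gc

variable {E : Type} [NormedAddCommGroup E] [NormedSpace ℂ E] {c C C₂ r₀ : ℝ} {G : ℂ → E} {z₀ : ℂ}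

theorem GC.lip (h : GC c C C₂ G z₀ r₀) {z z' : ℂ} (hz : z ∈ ball z₀ r₀) (hz' : z' ∈ ball z₀ r₀) :
    ‖G z - G z'‖ ≤ C * ‖z - z'‖ :=
  (convex_ball z₀ r₀).norm_image_sub_le_of_norm_hasDerivWithin_le
    (fun x hx => (h.an x hx).differentiableAt.hasDerivAt.hasDerivWithinAt) h.up hz' hz

theorem GC.lip' [CompleteSpace E] (h : GC c C C₂ G z₀ r₀) {z z' : ℂ} (hz : z ∈ ball z₀ r₀) (hz' : z' ∈ ball z₀ r₀) :
    ‖deriv G z - deriv G z'‖ ≤ C₂ * ‖z - z'‖ :=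
  (convex_ball z₀ r₀).norm_image_sub_le_of_norm_hasDerivWithin_le
    (fun x hx => (h.an x hx).deriv.differentiableAt.hasDerivAt.hasDerivWithinAt) h.acc hz' hz

/-- Taylor's formula of order one -/
theorem GC.taylor [CompleteSpace E] (h : GC c C C₂ G z₀ r₀) (hC₂ : 0 ≤ C₂) {z z' : ℂ} (hz : z ∈ ball z₀ r₀)
    (hz' : z' ∈ ball z₀ r₀) : ‖G z - G z' - (z - z') • deriv G z'‖ ≤ C₂ * ‖z - z'‖ ^ 2 := by
  have hseg : segment ℝ z' z ⊆ ball z₀ r₀ := (convex_ball z₀ r₀).segment_subset hz' hz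
  have h1 : ∀ x ∈ segment ℝ z' z, HasDerivWithinAt (fun x => G x - x • deriv G z')
      (deriv G x - deriv G z') (segment ℝ z' z) x := by
    intro x hx
    have h2 : HasDerivAt (fun x : ℂ => x • deriv G z') (deriv G z') x := by
      simpa using (hasDerivAt_id x).smul_const (deriv G z')
    exact ((h.an x (hseg hx)).differentiableAt.hasDerivAt.sub h2).hasDerivWithinAt
  have h3 : ∀ x ∈ segment ℝ z' z, ‖deriv G x - deriv G z'‖ ≤ C₂ * ‖z - z'‖ := by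
    intro x hx
    refine (h.lip' (hseg hx) hz').trans ?_
    refine mul_le_mul_of_nonneg_left ?_ hC₂
    exact norm_sub_le_of_mem_segment hx
  have h5 := (convex_segment z' z).norm_image_sub_le_of_norm_hasDerivWithin_le h1 h3
    (left_mem_segment ℝ z' z) (right_mem_segment ℝ z' z)
  have h6 : G z - G z' - (z - z') • deriv G z' =
      (G z - z • deriv G z') - (G z' - z' • deriv G z') := by
    rw [sub_smul]
    abel
  rw [h6, pow_two, ← mul_assoc]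
  exact h5

/-- lower Lipschitz bound on small balls -/
theorem GC.low [CompleteSpace E] (h : GC c C C₂ G z₀ r₀) (hC₂ : 0 ≤ C₂) (hr : C₂ * (2 * r₀) ≤ c / 2) {z z' : ℂ}
    (hz : z ∈ ball z₀ r₀) (hz' : z' ∈ ball z₀ r₀) : c / 2 * ‖z - z'‖ ≤ ‖G z - G z'‖ := by
  have h1 := h.taylor hC₂ hz hz'
  have h2 : ‖z - z'‖ ≤ 2 * r₀ := by
    rw [mem_ball_iff_norm] at hz hz'
    have h3 : z - z' = (z - z₀) - (z' - z₀) := by ring
    rw [h3]
    have := norm_sub_le (z - z₀) (z' - z₀)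
    linarith
  have h4 : c * ‖z - z'‖ ≤ ‖(z - z') • deriv G z'‖ := by
    rw [norm_smul, mul_comm]
    exact mul_le_mul_of_nonneg_left (h.lo z' hz') (norm_nonneg _)
  have h5 : ‖(z - z') • deriv G z'‖ ≤ ‖G z - G z'‖ + C₂ * ‖z - z'‖ ^ 2 := by
    have h6 : (z - z') • deriv G z' = (G z - G z') - (G z - G z' - (z - z') • deriv G z') := by
      abel
    rw [h6]
    exact (norm_sub_le _ _).trans (by linarith)
  have h7 : C₂ * ‖z - z'‖ ^ 2 ≤ c / 2 * ‖z - z'‖ := by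
    rw [pow_two, ← mul_assoc]
    refine mul_le_mul_of_nonneg_right ?_ (norm_nonneg _)
    exact (mul_le_mul_of_nonneg_left h2 hC₂).trans hr
  linarith

/-- existence of a normalised local match, from two match points -/
theorem exists_LO {c C C₂ : ℝ} (hc : 0 < c) (hcC : c ≤ C) (hC₂ : 0 ≤ C₂) :
    ∃ C₃ > 0, ∃ rb > 0, ∀ r₀, 0 < r₀ → r₀ ≤ rb → ∃ ρm > 0, ∃ ρ₀ > 0, ρm < r₀ ∧ ρ₀ < r₀ ∧
      ∀ ρ₁, 0 < ρ₁ → ρ₁ ≤ ρm → ∃ ε₀ > 0,
        ∀ {E : Type} [NormedAddCommGroup E] [NormedSpace ℂ E] [CompleteSpace E]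
        (G H : ℂ → E) (z₀ w₀ z₁ w₁ : ℂ), GC c C C₂ G z₀ r₀ → GC c C C₂ H w₀ r₀ →
        ‖H w₀ - G z₀‖ ≤ ε₀ → ‖z₁ - z₀‖ = ρ₁ → w₁ ∈ ball w₀ r₀ → ‖H w₁ - G z₁‖ ≤ ε₀ →
        ∃ (l : E →L[ℂ] ℂ) (t : ℂ → ℂ), LO c C₃ ρ₀ r₀ G H z₀ w₀ l t := by
  have hC : 0 < C := hc.trans_le hcC
  -- the lower bound `m` of the form on the velocity of `H`
  obtain ⟨m, hm⟩ : ∃ m, m = c ^ 2 / (8 * C) := ⟨_, rfl⟩
  have hm0 : 0 < m := by rw [hm]; positivity
  obtain ⟨K, hK⟩ : ∃ K, K = C₂ * (1 + 16 * C ^ 2 / c ^ 2) := ⟨_, rfl⟩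
  have hK0 : 0 ≤ K := by rw [hK]; positivity
  refine ⟨2 * C / m + 2 / m + 1, by positivity, min (c / (4 * (C₂ + 1))) (m / (2 * (C₂ + 1))),
    by positivity, ?_⟩
  intro r₀ hr₀ hrb
  have hr1 : C₂ * (2 * r₀) ≤ c / 2 := by
    have h1 : r₀ ≤ c / (4 * (C₂ + 1)) := hrb.trans (min_le_left _ _)
    rw [le_div_iff₀ (by positivity)] at h1
    nlinarith
  have hr2 : C₂ * r₀ ≤ m / 2 := by
    have h1 : r₀ ≤ m / (2 * (C₂ + 1)) := hrb.trans (min_le_right _ _)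
    rw [le_div_iff₀ (by positivity)] at h1
    nlinarith
  obtain ⟨ρm, hρm⟩ : ∃ ρm, ρm = min (r₀ / 2) (c / (8 * (K + 1))) := ⟨_, rfl⟩
  have hρm0 : 0 < ρm := by rw [hρm]; positivity
  have hρmr : ρm ≤ r₀ / 2 := by rw [hρm]; exact min_le_left _ _
  obtain ⟨ρ₀, hρ₀⟩ : ∃ ρ₀, ρ₀ = min (r₀ / 2) (m * r₀ / (16 * C)) := ⟨_, rfl⟩
  have hρ₀0 : 0 < ρ₀ := by rw [hρ₀]; positivity
  have hρ₀r : ρ₀ ≤ r₀ / 2 := by rw [hρ₀]; exact min_le_left _ _
  have hρ₀m : C * ρ₀ ≤ m * r₀ / 16 := by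
    have h1 : ρ₀ ≤ m * r₀ / (16 * C) := by rw [hρ₀]; exact min_le_right _ _
    rw [le_div_iff₀ (by positivity)] at h1
    linarith
  refine ⟨ρm, hρm0, ρ₀, hρ₀0, by linarith, by linarith, ?_⟩
  intro ρ₁ hρ₁0 hρ₁m
  have hρ₁r : ρ₁ ≤ r₀ / 2 := hρ₁m.trans hρmr
  have hρ₁K : K * ρ₁ ≤ c / 8 := by
    have h1 : ρ₁ ≤ c / (8 * (K + 1)) := hρ₁m.trans (by rw [hρm]; exact min_le_right _ _)
    rw [le_div_iff₀ (by positivity)] at h1
    nlinarith
  obtain ⟨ε₀, hε₀⟩ : ∃ ε₀, ε₀ = min (c * ρ₁ / 16) (m * r₀ / 32) := ⟨_, rfl⟩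
  have hε₀0 : 0 < ε₀ := by rw [hε₀]; positivity
  have hε₀1 : ε₀ ≤ c * ρ₁ / 16 := by rw [hε₀]; exact min_le_left _ _
  have hε₀2 : ε₀ ≤ m * r₀ / 32 := by rw [hε₀]; exact min_le_right _ _
  refine ⟨ε₀, hε₀0, ?_⟩
  intro E _ _ _ G H z₀ w₀ z₁ w₁ hG hH h0 hz₁ hw₁ h1
  have hz₀m : z₀ ∈ ball z₀ r₀ := mem_ball_self hr₀
  have hw₀m : w₀ ∈ ball w₀ r₀ := mem_ball_self hr₀
  have hz₁m : z₁ ∈ ball z₀ r₀ := by
    rw [mem_ball_iff_norm, hz₁]
    linarith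
  have hz₁ne : z₁ - z₀ ≠ 0 := by
    rw [← norm_pos_iff, hz₁]
    exact hρ₁0
  -- the displacement of `w`
  have hdw : ‖w₁ - w₀‖ ≤ 4 * C / c * ρ₁ := by
    have h2 := hH.low hC₂ hr1 hw₁ hw₀m
    have h3 := hG.lip hz₁m hz₀m
    rw [hz₁] at h3
    have h4 : ‖H w₁ - H w₀‖ ≤ C * ρ₁ + 2 * ε₀ := by
      have h5 : H w₁ - H w₀ = (H w₁ - G z₁) + (G z₁ - G z₀) - (H w₀ - G z₀) := by abel
      rw [h5]
      have h6 := norm_sub_le ((H w₁ - G z₁) + (G z₁ - G z₀)) (H w₀ - G z₀)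
      have h7 := norm_add_le (H w₁ - G z₁) (G z₁ - G z₀)
      linarith
    have h5 : 2 * ε₀ ≤ C * ρ₁ := by nlinarith
    have h6 : c / 2 * ‖w₁ - w₀‖ ≤ 2 * (C * ρ₁) := by linarith
    have h7 : 4 * C / c * ρ₁ = 2 / c * (2 * (C * ρ₁)) := by ring
    rw [h7]
    calc ‖w₁ - w₀‖ = 2 / c * (c / 2 * ‖w₁ - w₀‖) := by field_simp
      _ ≤ 2 / c * (2 * (C * ρ₁)) := mul_le_mul_of_nonneg_left h6 (by positivity)
  -- the quotient
  obtain ⟨α, hα⟩ : ∃ α, α = (w₁ - w₀) / (z₁ - z₀) := ⟨_, rfl⟩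
  have hα1 : ‖α‖ ≤ 4 * C / c := by
    rw [hα, norm_div, hz₁, div_le_iff₀ hρ₁0]
    exact hdw
  have hα2 : ‖deriv G z₀ - α • deriv H w₀‖ ≤ c / 4 := by
    have h2 := hG.taylor hC₂ hz₁m hz₀m
    have h3 := hH.taylor hC₂ hw₁ hw₀m
    rw [hz₁] at h2
    have h4 : (z₁ - z₀) • (deriv G z₀ - α • deriv H w₀) =
        (z₁ - z₀) • deriv G z₀ - (w₁ - w₀) • deriv H w₀ := by
      rw [smul_sub, smul_smul, hα, mul_div_cancel₀ _ hz₁ne]
    have h5 : (z₁ - z₀) • deriv G z₀ - (w₁ - w₀) • deriv H w₀ =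
        (H w₁ - H w₀ - (w₁ - w₀) • deriv H w₀) - (G z₁ - G z₀ - (z₁ - z₀) • deriv G z₀) -
          (H w₁ - G z₁) + (H w₀ - G z₀) := by abel
    have h6 : ρ₁ * ‖deriv G z₀ - α • deriv H w₀‖ ≤
        C₂ * (4 * C / c * ρ₁) ^ 2 + C₂ * ρ₁ ^ 2 + 2 * ε₀ := by
      rw [← hz₁, ← norm_smul, h4, h5]
      have h7 := norm_add_le ((H w₁ - H w₀ - (w₁ - w₀) • deriv H w₀) -
        (G z₁ - G z₀ - (z₁ - z₀) • deriv G z₀) - (H w₁ - G z₁)) (H w₀ - G z₀)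
      have h8 := norm_sub_le ((H w₁ - H w₀ - (w₁ - w₀) • deriv H w₀) -
        (G z₁ - G z₀ - (z₁ - z₀) • deriv G z₀)) (H w₁ - G z₁)
      have h9 := norm_sub_le (H w₁ - H w₀ - (w₁ - w₀) • deriv H w₀)
        (G z₁ - G z₀ - (z₁ - z₀) • deriv G z₀)
      have h10 : C₂ * ‖w₁ - w₀‖ ^ 2 ≤ C₂ * (4 * C / c * ρ₁) ^ 2 := by
        refine mul_le_mul_of_nonneg_left ?_ hC₂
        exact pow_le_pow_left₀ (norm_nonneg _) hdw 2
      rw [hz₁]
      linarith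
    have h7 : C₂ * (4 * C / c * ρ₁) ^ 2 + C₂ * ρ₁ ^ 2 = K * ρ₁ * ρ₁ := by
      rw [hK]
      ring
    have h8 : ρ₁ * ‖deriv G z₀ - α • deriv H w₀‖ ≤ ρ₁ * (c / 4) := by
      rw [h7] at h6
      have h9 : K * ρ₁ * ρ₁ ≤ c / 8 * ρ₁ := mul_le_mul_of_nonneg_right hρ₁K hρ₁0.le
      have h10 : 2 * ε₀ ≤ c / 8 * ρ₁ := by linarith
      calc ρ₁ * ‖deriv G z₀ - α • deriv H w₀‖ ≤ K * ρ₁ * ρ₁ + 2 * ε₀ := h6
        _ ≤ ρ₁ * (c / 4) := by linarith
    exact le_of_mul_le_mul_left h8 hρ₁0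
  -- the linear form
  have hG0 : c ≤ ‖deriv G z₀‖ := hG.lo z₀ hz₀m
  have hGne : deriv G z₀ ≠ 0 := by
    rw [← norm_pos_iff]
    linarith
  obtain ⟨l, hl1, hl2⟩ := exists_dual_vector ℂ (deriv G z₀) (norm_ne_zero_iff.2 hGne)
  have hlH : m ≤ ‖l (deriv H w₀)‖ := by
    have h2 : l (deriv G z₀) = α * l (deriv H w₀) + l (deriv G z₀ - α • deriv H w₀) := by
      rw [map_sub, map_smul, smul_eq_mul]
      ring
    have h3 : ‖l (deriv G z₀)‖ = ‖deriv G z₀‖ := by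
      rw [hl2]
      simp
    have h4 : ‖l (deriv G z₀ - α • deriv H w₀)‖ ≤ c / 4 := by
      refine (l.le_opNorm _).trans ?_
      rw [hl1, one_mul]
      exact hα2
    have h5 : c ≤ 4 * C / c * ‖l (deriv H w₀)‖ + c / 4 := by
      calc c ≤ ‖l (deriv G z₀)‖ := by rw [h3]; exact hG0
        _ ≤ ‖α * l (deriv H w₀)‖ + ‖l (deriv G z₀ - α • deriv H w₀)‖ := by
            rw [h2]
            exact norm_add_le _ _
        _ ≤ 4 * C / c * ‖l (deriv H w₀)‖ + c / 4 := by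
            rw [norm_mul]
            exact add_le_add (mul_le_mul_of_nonneg_right hα1 (norm_nonneg _)) h4
    have h6 : c / 2 ≤ 4 * C / c * ‖l (deriv H w₀)‖ := by linarith
    calc m = c / (4 * C) * (c / 2) := by rw [hm]; field_simp; ring
      _ ≤ c / (4 * C) * (4 * C / c * ‖l (deriv H w₀)‖) :=
          mul_le_mul_of_nonneg_left h6 (by positivity)
      _ = ‖l (deriv H w₀)‖ := by field_simp
  -- the inverse function
  have hlne : l (deriv H w₀) ≠ 0 := by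
    rw [← norm_pos_iff]
    linarith
  have hHd : ∀ w ∈ ball w₀ r₀, HasDerivAt (fun w => l (H w)) (l (deriv H w)) w := fun w hw =>
    l.hasFDerivAt.comp_hasDerivAt w (hH.an w hw).differentiableAt.hasDerivAt
  have hder : ∀ w ∈ ball w₀ r₀, ‖deriv (fun w => l (H w)) w - l (deriv H w₀)‖ ≤
      ‖l (deriv H w₀)‖ / 2 := by
    intro w hw
    rw [(hHd w hw).deriv, ← map_sub]
    refine (l.le_opNorm _).trans ?_
    rw [hl1, one_mul]
    refine (hH.lip' hw hw₀m).trans ?_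
    have h2 : C₂ * ‖w - w₀‖ ≤ C₂ * r₀ :=
      mul_le_mul_of_nonneg_left (mem_ball_iff_norm.1 hw).le hC₂
    linarith
  obtain ⟨hlow, g, hg⟩ := inv_one hr₀ (fun w hw => (hHd w hw).differentiableAt) hlne hder
  have hGd : ∀ z ∈ ball z₀ ρ₀, HasDerivAt (fun z => l (G z)) (l (deriv G z)) z := fun z hz =>
    l.hasFDerivAt.comp_hasDerivAt z
      (hG.an z (ball_subset_ball (by linarith) hz)).differentiableAt.hasDerivAt
  have hmem : ∀ z ∈ ball z₀ ρ₀, l (G z) ∈ ball (l (H w₀)) (‖l (deriv H w₀)‖ * r₀ / 8) := by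
    intro z hz
    have hz' : z ∈ ball z₀ r₀ := ball_subset_ball (by linarith) hz
    rw [mem_ball_iff_norm, ← map_sub]
    have h2 : ‖G z - H w₀‖ ≤ C * ρ₀ + ε₀ := by
      have h3 : G z - H w₀ = (G z - G z₀) - (H w₀ - G z₀) := by abel
      rw [h3]
      have h4 := norm_sub_le (G z - G z₀) (H w₀ - G z₀)
      have h5 := hG.lip hz' hz₀m
      have h6 : C * ‖z - z₀‖ ≤ C * ρ₀ :=
        mul_le_mul_of_nonneg_left (mem_ball_iff_norm.1 hz).le hC.le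
      linarith
    have h3 : ‖l (G z - H w₀)‖ ≤ ‖G z - H w₀‖ := by
      refine (l.le_opNorm _).trans ?_
      rw [hl1, one_mul]
    have h4 : m * r₀ / 8 ≤ ‖l (deriv H w₀)‖ * r₀ / 8 := by
      have := mul_le_mul_of_nonneg_right hlH hr₀.le
      linarith
    have h5 : 0 < m * r₀ := by positivity
    linarith
  refine ⟨l, fun z => g (l (G z)), ?_⟩
  constructor
  case l_le => exact hl1.le
  case t_an =>
    -- analyticity
    intro z hz
    have h2 : AnalyticAt ℂ (fun z => l (G z)) z := by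
      exact l.analyticAt _ |>.comp (hG.an z (ball_subset_ball (by linarith) hz))
    exact AnalyticAt.comp (g := g) (f := fun z => l (G z)) (hg _ (hmem z hz)).1 h2
  case t_mem =>
    intro z hz
    exact (hg _ (hmem z hz)).2.1
  case t_der =>
    -- the derivative
    intro z hz
    have h2 := (hg _ (hmem z hz)).1.differentiableAt.hasDerivAt.comp z (hGd z hz)
    have h3 : HasDerivAt (fun z => g (l (G z))) (deriv g (l (G z)) * l (deriv G z)) z := h2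
    have h4 := (hHd _ (hg _ (hmem z hz)).2.1).comp z h3
    have h5 : (fun z => l (H (g (l (G z))))) =ᶠ[𝓝 z] fun z => l (G z) := by
      filter_upwards [isOpen_ball.mem_nhds hz] with z' hz'
      exact (hg _ (hmem z' hz')).2.2
    have h6 : l (deriv H (g (l (G z)))) * (deriv g (l (G z)) * l (deriv G z)) =
        l (deriv G z) := by
      have h7 : HasDerivAt (fun z => l (H (g (l (G z)))))
          (l (deriv H (g (l (G z)))) * (deriv g (l (G z)) * l (deriv G z))) z := h4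
      exact h7.unique ((hGd z hz).congr_of_eventuallyEq h5)
    rw [h3.deriv]
    have h8 : m / 2 ≤ ‖l (deriv H (g (l (G z))))‖ := by
      have h9 := hder _ (hg _ (hmem z hz)).2.1
      rw [(hHd _ (hg _ (hmem z hz)).2.1).deriv] at h9
      have h10 : ‖l (deriv H w₀)‖ ≤ ‖l (deriv H (g (l (G z))))‖ +
          ‖l (deriv H (g (l (G z)))) - l (deriv H w₀)‖ := by
        have h11 : l (deriv H w₀) = l (deriv H (g (l (G z)))) -
            (l (deriv H (g (l (G z)))) - l (deriv H w₀)) := by ring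
        calc ‖l (deriv H w₀)‖ = ‖l (deriv H (g (l (G z)))) -
            (l (deriv H (g (l (G z)))) - l (deriv H w₀))‖ := by rw [← h11]
          _ ≤ _ := norm_sub_le _ _
      linarith
    have h9 : ‖l (deriv G z)‖ ≤ C := by
      refine (l.le_opNorm _).trans ?_
      rw [hl1, one_mul]
      exact hG.up z (ball_subset_ball (by linarith) hz)
    have h10 : m / 2 * ‖deriv g (l (G z)) * l (deriv G z)‖ ≤ C := by
      calc m / 2 * ‖deriv g (l (G z)) * l (deriv G z)‖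
          ≤ ‖l (deriv H (g (l (G z))))‖ * ‖deriv g (l (G z)) * l (deriv G z)‖ :=
            mul_le_mul_of_nonneg_right h8 (norm_nonneg _)
        _ = ‖l (deriv G z)‖ := by rw [← norm_mul, h6]
        _ ≤ C := h9
    have h11 : ‖deriv g (l (G z)) * l (deriv G z)‖ ≤ 2 * C / m := by
      rw [le_div_iff₀ hm0]
      linarith
    have h12 : 0 ≤ 2 / m := by positivity
    linarith
  case eq =>
    intro z hz
    exact (hg _ (hmem z hz)).2.2
  case uniq =>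
    intro z hz w hw
    have h2 := hlow _ (hg _ (hmem z hz)).2.1 w hw
    rw [(hg _ (hmem z hz)).2.2, ← map_sub] at h2
    have h3 : ‖l (G z - H w)‖ ≤ ‖H w - G z‖ := by
      refine (l.le_opNorm _).trans ?_
      rw [hl1, one_mul, norm_sub_rev]
    have h4 : m / 2 * ‖g (l (G z)) - w‖ ≤ ‖H w - G z‖ := by
      have h5 : m / 2 ≤ ‖l (deriv H w₀)‖ / 2 := by linarith
      exact (mul_le_mul_of_nonneg_right h5 (norm_nonneg _)).trans (h2.trans h3)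
    have h5 : ‖g (l (G z)) - w‖ ≤ 2 / m * ‖H w - G z‖ := by
      calc ‖g (l (G z)) - w‖ = 2 / m * (m / 2 * ‖g (l (G z)) - w‖) := by field_simp
        _ ≤ 2 / m * ‖H w - G z‖ := mul_le_mul_of_nonneg_left h4 (by positivity)
    refine h5.trans (mul_le_mul_of_nonneg_right ?_ (norm_nonneg _))
    have h6 : 0 ≤ 2 * C / m := by positivity
    linarith
  case low =>
    intro z hz
    have hz' : z ∈ ball z₀ r₀ := ball_subset_ball (by linarith) hz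
    have h2 : ‖l (deriv G z₀)‖ = ‖deriv G z₀‖ := by
      rw [hl2]
      simp
    have h3 : ‖l (deriv G z₀)‖ ≤ ‖l (deriv G z)‖ + ‖l (deriv G z - deriv G z₀)‖ := by
      rw [map_sub]
      have h4 : l (deriv G z₀) = l (deriv G z) - (l (deriv G z) - l (deriv G z₀)) := by ring
      calc ‖l (deriv G z₀)‖ = ‖l (deriv G z) - (l (deriv G z) - l (deriv G z₀))‖ := by rw [← h4]
        _ ≤ _ := norm_sub_le _ _
    have h5 : ‖l (deriv G z - deriv G z₀)‖ ≤ c / 2 := by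
      refine (l.le_opNorm _).trans ?_
      rw [hl1, one_mul]
      refine (hG.lip' hz' hz₀m).trans ?_
      have h6 : C₂ * ‖z - z₀‖ ≤ C₂ * (2 * r₀) := by
        refine mul_le_mul_of_nonneg_left ?_ hC₂
        have := (mem_ball_iff_norm.1 hz).le
        linarith
      linarith
    linarith

/-- existence of a normalised local match for a coarse match on `Ω` -/
theorem LO_match {c C C₂ : ℝ} (hc : 0 < c) (hcC : c ≤ C) (hC₂ : 0 ≤ C₂) :
    ∃ C₃ > 0, ∃ rb > 0, ∀ r₀, 0 < r₀ → r₀ ≤ rb → ∃ ρm > 0, ∃ ρ₀ > 0, ρm < r₀ ∧ ρ₀ < r₀ ∧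
      ∀ ρ₁, 0 < ρ₁ → ρ₁ ≤ ρm → ∀ δ > 0, ∃ ε > 0,
        ∀ {E : Type} [NormedAddCommGroup E] [NormedSpace ℂ E] [CompleteSpace E]
        (G H : ℂ → E) (z₀ : ℂ) (s : ℂ → ℂ) (Ω : Set ℂ), GC c C C₂ G z₀ r₀ →
        GC c C C₂ H (s z₀) r₀ → z₀ ∈ Ω → (∃ z₁ ∈ Ω, ‖z₁ - z₀‖ = ρ₁) →
        (∀ z ∈ Ω, ‖z - z₀‖ ≤ ρ₁ → s z ∈ ball (s z₀) r₀ ∧ ‖H (s z) - G z‖ ≤ ε) →
        ∃ (l : E →L[ℂ] ℂ) (t : ℂ → ℂ), LO c C₃ ρ₀ r₀ G H z₀ (s z₀) l t ∧
          ∀ z ∈ Ω, ‖z - z₀‖ ≤ ρ₁ → z ∈ ball z₀ ρ₀ → ‖t z - s z‖ ≤ δ ∧ ‖H (t z) - G z‖ ≤ δ := by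
  obtain ⟨C₃, hC₃, rb, hrb, h⟩ := exists_LO hc hcC hC₂
  have hC : 0 < C := hc.trans_le hcC
  refine ⟨C₃, hC₃, rb, hrb, fun r₀ hr₀ hr₀b => ?_⟩
  obtain ⟨ρm, hρm, ρ₀, hρ₀, hρmr, hρ₀r, h⟩ := h r₀ hr₀ hr₀b
  refine ⟨ρm, hρm, ρ₀, hρ₀, hρmr, hρ₀r, fun ρ₁ hρ₁ hρ₁m δ hδ => ?_⟩
  obtain ⟨ε₀, hε₀, h⟩ := h ρ₁ hρ₁ hρ₁m
  refine ⟨min ε₀ (δ / (C₃ + C * C₃ + 1)), by positivity, ?_⟩
  intro E _ _ _ G H z₀ s Ω hG hH hz₀ ⟨z₁, hz₁, hz₁'⟩ hs
  obtain ⟨l, t, hLO⟩ := h G H z₀ (s z₀) z₁ (s z₁) hG hH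
    ((hs z₀ hz₀ (by rw [sub_self, norm_zero]; exact hρ₁.le)).2.trans (min_le_left _ _)) hz₁'
    (hs z₁ hz₁ hz₁'.le).1 ((hs z₁ hz₁ hz₁'.le).2.trans (min_le_left _ _))
  refine ⟨l, t, hLO, fun z hz hz1 hz2 => ?_⟩
  obtain ⟨h1, h2⟩ := hs z hz hz1
  have h3 : ‖H (s z) - G z‖ * (C₃ + C * C₃ + 1) ≤ δ := by
    rw [← le_div_iff₀ (by positivity)]
    exact h2.trans (min_le_right _ _)
  have h4 := hLO.uniq z hz2 (s z) h1
  have h0 := norm_nonneg (H (s z) - G z)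
  have h5 : 0 ≤ C * C₃ * ‖H (s z) - G z‖ := by positivity
  have h6 : 0 ≤ C₃ * ‖H (s z) - G z‖ := by positivity
  refine ⟨by nlinarith, ?_⟩
  have h7 := hH.lip (hLO.t_mem z hz2) h1
  have h8 : H (t z) - G z = (H (t z) - H (s z)) + (H (s z) - G z) := by abel
  rw [h8]
  have h9 : C * ‖t z - s z‖ ≤ C * (C₃ * ‖H (s z) - G z‖) := mul_le_mul_of_nonneg_left h4 hC.le
  have h10 := norm_add_le (H (t z) - H (s z)) (H (s z) - G z)
  nlinarith

/-- a displacement in the kernel of the form is transversal to the velocity -/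
theorem LO.transv {G H : ℂ → E} {c C C₂ C₃ ρ₀ r₀ : ℝ} {z₀ w₀ : ℂ} {l : E →L[ℂ] ℂ} {t : ℂ → ℂ}
    (hc : 0 < c) (hC : 0 < C) (hLO : LO c C₃ ρ₀ r₀ G H z₀ w₀ l t) (hG : GC c C C₂ G z₀ r₀)
    (hρ : ρ₀ ≤ r₀) {z : ℂ} (hz : z ∈ ball z₀ ρ₀) (a : ℂ) :
    c / (c + 2 * C) * ‖H (t z) - G z‖ ≤ ‖H (t z) - G z - a • deriv G z‖ := by
  obtain ⟨η, hη⟩ : ∃ η, η = H (t z) - G z := ⟨_, rfl⟩
  rw [← hη]
  have h1 : l η = 0 := by rw [hη, map_sub, hLO.eq z hz, sub_self]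
  have h2 : ‖a‖ * (c / 2) ≤ ‖η - a • deriv G z‖ := by
    have h3 : ‖l (η - a • deriv G z)‖ ≤ ‖η - a • deriv G z‖ := by
      refine (l.le_opNorm _).trans ?_
      exact mul_le_of_le_one_left (norm_nonneg _) hLO.l_le
    refine le_trans ?_ h3
    rw [map_sub, h1, zero_sub, norm_neg, map_smul, norm_smul]
    exact mul_le_mul_of_nonneg_left (hLO.low z hz) (norm_nonneg _)
  have h3 : ‖η‖ ≤ ‖η - a • deriv G z‖ + ‖a‖ * C := by
    have h4 : η = (η - a • deriv G z) + a • deriv G z := by abel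
    have h5 : ‖a • deriv G z‖ ≤ ‖a‖ * C := by
      rw [norm_smul]
      exact mul_le_mul_of_nonneg_left (hG.up z (ball_subset_ball hρ hz)) (norm_nonneg _)
    calc ‖η‖ = ‖(η - a • deriv G z) + a • deriv G z‖ := by rw [← h4]
      _ ≤ _ := norm_add_le _ _
      _ ≤ _ := by linarith
  rw [div_mul_eq_mul_div, div_le_iff₀ (by positivity)]
  have h4 : 0 ≤ ‖η - a • deriv G z‖ := norm_nonneg _
  nlinarith [norm_nonneg a]

end gc

end Pool.Agent.BR
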