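import Pool.Agent.Lib_helper26.BR.Key
import Pool.Agent.Lib_helper26.BR.Inv

/-! # MP_45e720_ag, BrodyRigidity: uniform estimates for the forms -/

set_option autoImplicit false

open Filter Topology Metric Set

namespace Pool.Agent.BR

theorem ulim {α : Type*} [TopologicalSpace α] {K : Set α} (hK : IsCompact K) (U : Ultrafilter ℕ)
    {f : ℕ → α} (hf : ∀ n, f n ∈ K) : ∃ y ∈ K, Tendsto f U (𝓝 y) := by
  have h1 := hK.ultrafilter_le_nhds (U.map f) (by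
    rw [Ultrafilter.coe_map, le_principal_iff, mem_map]
    exact Filter.Eventually.of_forall hf)
  obtain ⟨y, hy, h2⟩ := h1
  exact ⟨y, hy, h2⟩

section forms

variable {E : Type} [NormedAddCommGroup E] [NormedSpace ℂ E]
  {O K₀ : Set E} {L k : ℕ} {T : E → E → E → EuclideanSpace ℂ (Fin L)}

theorem TForm.smul_left (hT : TForm O L k T) {ξ : E} (hξ : ξ ∈ O) (a : ℂ) (u v : E) :
    T ξ (a • u) v = a ^ k • T ξ u v := by
  have h := hT.equi ξ hξ a 0 0 1 u v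
  simpa using h

theorem TForm.zero_left (hT : TForm O L k T) (hk : 0 < k) {ξ : E} (hξ : ξ ∈ O) (v : E) :
    T ξ 0 v = 0 := by
  have h := hT.smul_left hξ 0 0 v
  rw [smul_zero, zero_pow hk.ne', zero_smul] at h
  exact h

theorem TForm.shift (hT : TForm O L k T) {ξ : E} (hξ : ξ ∈ O) (b : ℂ) (u v : E) :
    T ξ (u + b • v) v = T ξ u v := by
  have h := hT.equi ξ hξ 1 b 0 1 u v
  simpa using h

theorem indep_of_transv {u v : E} {c₀ : ℝ} (hc₀ : 0 < c₀) (hu : u ≠ 0) (hv : v ≠ 0)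
    (htr : ∀ a : ℂ, c₀ * ‖u‖ ≤ ‖u - a • v‖) : LinearIndependent ℂ ![u, v] := by
  rw [LinearIndependent.pair_iff]
  intro s t hst
  have hs : s = 0 := by
    by_contra hs
    have h1 : u - (-(s⁻¹ * t)) • v = 0 := by
      have h2 : s • (u - (-(s⁻¹ * t)) • v) = 0 := by
        rw [smul_sub, smul_smul, mul_neg, ← mul_assoc, mul_inv_cancel₀ hs, one_mul, neg_smul,
          sub_neg_eq_add]
        exact hst
      exact (smul_eq_zero.1 h2).resolve_left hs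
    have h3 := htr (-(s⁻¹ * t))
    rw [h1, norm_zero] at h3
    have h4 : 0 < ‖u‖ := norm_pos_iff.2 hu
    have : 0 < c₀ * ‖u‖ := by positivity
    linarith
  rw [hs, zero_smul, zero_add] at hst
  exact ⟨hs, (smul_eq_zero.1 hst).resolve_right hv⟩

/-- the derivative along a line -/
theorem fd_line {W V : Type*} [NormedAddCommGroup W] [NormedSpace ℂ W] [NormedAddCommGroup V]
    [NormedSpace ℂ V] {F : W → V} {p : W} (h : DifferentiableAt ℂ F p) (x : W) :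
    HasDerivAt (fun s : ℂ => F (p + s • x)) (fderiv ℂ F p x) 0 := by
  have h1 : HasDerivAt (fun s : ℂ => p + s • x) x 0 := by
    simpa using ((hasDerivAt_id (0 : ℂ)).smul_const x).const_add p
  have h2 : HasFDerivAt F (fderiv ℂ F p) (p + (0 : ℂ) • x) := by
    rw [zero_smul, add_zero]
    exact h.hasFDerivAt
  exact h2.comp_hasDerivAt (0 : ℂ) h1

/-- homogeneity of the derivative -/
theorem TForm.fd_smul (hT : TForm O L k T) (hO : IsOpen O) {ξ : E} (hξ : ξ ∈ O) (a : ℂ)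
    (u v ξ' u' v' : E) :
    fderiv ℂ (fun p : E × E × E => T p.1 p.2.1 p.2.2) (ξ, a • u, v) (ξ', a • u', v') =
      a ^ k • fderiv ℂ (fun p : E × E × E => T p.1 p.2.1 p.2.2) (ξ, u, v) (ξ', u', v') := by
  have h1 := fd_line (hT.hol ξ hξ (a • u) v).differentiableAt (ξ', a • u', v')
  have h2 := (fd_line (hT.hol ξ hξ u v).differentiableAt (ξ', u', v')).const_smul (a ^ k)
  refine h1.unique (h2.congr_of_eventuallyEq ?_)
  have h3 : ∀ᶠ s : ℂ in 𝓝 0, ξ + s • ξ' ∈ O := by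
    have h4 : ContinuousAt (fun s : ℂ => ξ + s • ξ') 0 := by fun_prop
    refine h4.eventually (hO.mem_nhds ?_)
    simpa using hξ
  filter_upwards [h3] with s hs
  have h4 : a • u + s • a • u' = a • (u + s • u') := by rw [smul_add, smul_comm]
  simp only [Prod.mk_add_mk, Prod.smul_mk, Pi.smul_apply]
  rw [h4]
  exact hT.smul_left hs a (u + s • u') (v + s • v')

/-- the derivative in the directions of the plane -/
theorem TForm.fd_span (hT : TForm O L k T) {ξ : E} (hξ : ξ ∈ O) (α β : ℂ) (u v : E) :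
    fderiv ℂ (fun p : E × E × E => T p.1 p.2.1 p.2.2) (ξ, u, v) (0, α • u + β • v, 0) =
      (k * α) • T ξ u v := by
  have h1 := fd_line (hT.hol ξ hξ u v).differentiableAt (0, α • u + β • v, 0)
  have h2 : HasDerivAt (fun s : ℂ => (1 + s * α) ^ k) (k * α) 0 := by
    have h3 : HasDerivAt (fun s : ℂ => 1 + s * α) α 0 := by
      simpa using ((hasDerivAt_id (0 : ℂ)).mul_const α).const_add 1
    simpa using h3.fun_pow k
  have h4 := h2.smul_const (T ξ u v)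
  refine h1.unique (h4.congr_of_eventuallyEq ?_)
  refine Eventually.of_forall fun s => ?_
  have h5 := hT.equi ξ hξ (1 + s * α) (s * β) 0 1 u v
  simp only [Prod.mk_add_mk, Prod.smul_mk, smul_zero, add_zero]
  have h6 : u + s • (α • u + β • v) = (1 + s * α) • u + (s * β) • v := by
    rw [smul_add, smul_smul, smul_smul, add_smul, one_smul]
    abel
  rw [h6]
  simpa using h5

variable [FiniteDimensional ℂ E]

/-- TVU: upper bound -/
theorem tv_upper_pr (hT : TForm O L k T) (hK : IsCompact K₀) (hKO : K₀ ⊆ O)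
    {C : ℝ} : ∃ B : ℝ, ∀ ξ ∈ K₀, ∀ u v : E, ‖u‖ ≤ C → ‖v‖ ≤ C → ‖T ξ u v‖ ≤ B := by
  haveI : ProperSpace E := FiniteDimensional.proper ℂ E
  have h1 : IsCompact (K₀ ×ˢ (closedBall (0 : E) C ×ˢ closedBall (0 : E) C)) :=
    hK.prod ((isCompact_closedBall _ _).prod (isCompact_closedBall _ _))
  obtain ⟨B, hB⟩ := h1.exists_bound_of_continuousOn
    (f := fun p : E × E × E => T p.1 p.2.1 p.2.2) (fun p hp =>
      (hT.hol p.1 (hKO hp.1) p.2.1 p.2.2).continuousAt.continuousWithinAt)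
  exact ⟨B, fun ξ hξ u v hu hv => hB (ξ, u, v) ⟨hξ, by simpa using hu, by simpa using hv⟩⟩

/-- TV0: the displacement vanishes if the form vanishes -/
theorem tv_zero_pr (hT : TForm O L k T) {ξ : E} (hξ : ξ ∈ O) {c c₀ : ℝ} (hc : 0 < c)
    (hc₀ : 0 < c₀) {u v : E} (hv : c ≤ ‖v‖) (htr : ∀ a : ℂ, c₀ * ‖u‖ ≤ ‖u - a • v‖)
    (h : T ξ u v = 0) : u = 0 := by
  by_contra hu
  have hv' : v ≠ 0 := by
    rw [← norm_pos_iff]
    linarith
  exact hT.ne ξ hξ u v (indep_of_transv hc₀ hu hv' htr) h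

theorem imm_star (hT : TForm O L k T) (hK : IsCompact K₀) (hKO : K₀ ⊆ O)
    {c C C₂ c₀ : ℝ} (hc : 0 < c) (hc₀ : 0 < c₀) : ∃ κ > 0, ∀ ξ ∈ K₀, ∀ u v u' v' : E,
      ‖u‖ = 1 → c ≤ ‖v‖ → ‖v‖ ≤ C → ‖v'‖ ≤ C₂ → (∀ a : ℂ, c₀ ≤ ‖u - a • v‖) →
      (∀ α β : ℂ, ‖u'‖ ≤ ‖u' - (α • u + β • v)‖) → ∀ m : ℂ,
      κ ≤ ‖fderiv ℂ (fun p : E × E × E => T p.1 p.2.1 p.2.2) (ξ, u, v) (v, u', v') -
        m • T ξ u v‖ := by
  haveI : ProperSpace E := FiniteDimensional.proper ℂ E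
  by_contra hcon
  push Not at hcon
  choose ξ hξ u v u' v' hu hv1 hv2 hv' htr hmin m hlt using fun n : ℕ =>
    hcon (1 / ((n : ℝ) + 1)) (by positivity)
  obtain ⟨U, hU⟩ : ∃ U : Ultrafilter ℕ, (U : Filter ℕ) ≤ atTop :=
    ⟨Ultrafilter.of atTop, Ultrafilter.of_le _⟩
  set N : ℕ → ℝ := fun n => 1 + ‖u' n‖ + ‖m n‖ with hN
  have hN1 : ∀ n, 1 ≤ N n := fun n => by
    have h1 := norm_nonneg (u' n)
    have h2 := norm_nonneg (m n)
    simp only [hN]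
    linarith
  have hN0 : ∀ n, 0 < N n := fun n => lt_of_lt_of_le one_pos (hN1 n)
  set x : ℕ → ℝ := fun n => (N n)⁻¹ with hx
  have hx0 : ∀ n, 0 < x n := fun n => inv_pos.2 (hN0 n)
  have hx1 : ∀ n, x n ≤ 1 := fun n => inv_le_one_of_one_le₀ (hN1 n)
  set q : ℕ → E := fun n => (x n : ℂ) • u' n with hq
  set μ : ℕ → ℂ := fun n => (x n : ℂ) * m n with hμ
  have hqn : ∀ n, ‖q n‖ = x n * ‖u' n‖ := fun n => by
    simp only [hq]
    rw [norm_smul, Complex.norm_real, Real.norm_of_nonneg (hx0 n).le]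
  have hμn : ∀ n, ‖μ n‖ = x n * ‖m n‖ := fun n => by
    simp only [hμ]
    rw [norm_mul, Complex.norm_real, Real.norm_of_nonneg (hx0 n).le]
  have hsum : ∀ n, x n + ‖q n‖ + ‖μ n‖ = 1 := by
    intro n
    rw [hqn, hμn]
    have : x n * N n = 1 := inv_mul_cancel₀ (hN0 n).ne'
    simp only [hN] at this
    linarith
  obtain ⟨ξ₀, hξ₀, hξl⟩ := ulim hK U hξ
  obtain ⟨u₀, hu₀, hul⟩ := ulim (isCompact_sphere (0 : E) 1) U (f := u) (fun n => by
    rw [mem_sphere_zero_iff_norm]; exact hu n)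
  obtain ⟨v₀, -, hvl⟩ := ulim (isCompact_closedBall (0 : E) C) U (f := v) (fun n => by
    rw [mem_closedBall_zero_iff]; exact hv2 n)
  obtain ⟨v₁, -, hv'l⟩ := ulim (isCompact_closedBall (0 : E) C₂) U (f := v') (fun n => by
    rw [mem_closedBall_zero_iff]; exact hv' n)
  obtain ⟨x₀, -, hxl⟩ := ulim (isCompact_Icc (a := (0 : ℝ)) (b := 1)) U (f := x)
    (fun n => ⟨(hx0 n).le, hx1 n⟩)
  obtain ⟨q₀, -, hql⟩ := ulim (isCompact_closedBall (0 : E) 1) U (f := q) (fun n => by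
    rw [mem_closedBall_zero_iff]
    have := hsum n
    have := hx0 n
    have := norm_nonneg (μ n)
    linarith)
  obtain ⟨μ₀, -, hμl⟩ := ulim (isCompact_closedBall (0 : ℂ) 1) U (f := μ) (fun n => by
    rw [mem_closedBall_zero_iff]
    have := hsum n
    have := hx0 n
    have := norm_nonneg (q n)
    linarith)
  have hun : ‖u₀‖ = 1 := by rwa [mem_sphere_zero_iff_norm] at hu₀
  have hvn : c ≤ ‖v₀‖ := ge_of_tendsto' hvl.norm hv1
  have hv0 : v₀ ≠ 0 := by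
    rw [← norm_pos_iff]
    linarith
  have hu0 : u₀ ≠ 0 := by
    rw [← norm_pos_iff, hun]
    exact one_pos
  have htr0 : ∀ a : ℂ, c₀ * ‖u₀‖ ≤ ‖u₀ - a • v₀‖ := by
    intro a
    rw [hun, mul_one]
    exact ge_of_tendsto' (hul.sub (hvl.const_smul a)).norm (fun n => htr n a)
  have hind := indep_of_transv hc₀ hu0 hv0 htr0
  have hO : ξ₀ ∈ O := hKO hξ₀
  -- the limit of the derivatives
  have hp : Tendsto (fun n => (ξ n, u n, v n)) U (𝓝 (ξ₀, u₀, v₀)) :=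
    hξl.prodMk_nhds (hul.prodMk_nhds hvl)
  have hF := hT.hol ξ₀ hO u₀ v₀
  have hFl : Tendsto (fun n => T (ξ n) (u n) (v n)) U (𝓝 (T ξ₀ u₀ v₀)) :=
    hF.continuousAt.tendsto.comp hp
  have hDl : Tendsto (fun n => fderiv ℂ (fun p : E × E × E => T p.1 p.2.1 p.2.2)
      (ξ n, u n, v n)) U (𝓝 (fderiv ℂ (fun p : E × E × E => T p.1 p.2.1 p.2.2)
        (ξ₀, u₀, v₀))) := hF.fderiv.continuousAt.tendsto.comp hp
  have hxc : Tendsto (fun n => (x n : ℂ)) U (𝓝 (x₀ : ℂ)) :=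
    (Complex.continuous_ofReal.tendsto x₀).comp hxl
  have hdir : Tendsto (fun n => ((x n : ℂ) • v n, q n, (x n : ℂ) • v' n)) U
      (𝓝 ((x₀ : ℂ) • v₀, q₀, (x₀ : ℂ) • v₁)) :=
    (hxc.smul hvl).prodMk_nhds (hql.prodMk_nhds (hxc.smul hv'l))
  have h1 : Tendsto (fun n => fderiv ℂ (fun p : E × E × E => T p.1 p.2.1 p.2.2)
      (ξ n, u n, v n) ((x n : ℂ) • v n, q n, (x n : ℂ) • v' n) - μ n • T (ξ n) (u n) (v n)) U
      (𝓝 (fderiv ℂ (fun p : E × E × E => T p.1 p.2.1 p.2.2) (ξ₀, u₀, v₀)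
        ((x₀ : ℂ) • v₀, q₀, (x₀ : ℂ) • v₁) - μ₀ • T ξ₀ u₀ v₀)) :=
    (((isBoundedBilinearMap_apply (𝕜 := ℂ) (E := E × E × E)
      (F := EuclideanSpace ℂ (Fin L))).continuous.tendsto
      (fderiv ℂ (fun p : E × E × E => T p.1 p.2.1 p.2.2) (ξ₀, u₀, v₀),
        ((x₀ : ℂ) • v₀, q₀, (x₀ : ℂ) • v₁))).comp (hDl.prodMk_nhds hdir)).sub (hμl.smul hFl)
  have h2 : Tendsto (fun n => fderiv ℂ (fun p : E × E × E => T p.1 p.2.1 p.2.2)
      (ξ n, u n, v n) ((x n : ℂ) • v n, q n, (x n : ℂ) • v' n) - μ n • T (ξ n) (u n) (v n)) U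
      (𝓝 0) := by
    have h3 : Tendsto (fun n : ℕ => 1 / ((n : ℝ) + 1)) U (𝓝 0) :=
      tendsto_one_div_add_atTop_nhds_zero_nat.mono_left hU
    refine squeeze_zero_norm (fun n => ?_) h3
    have h4 : fderiv ℂ (fun p : E × E × E => T p.1 p.2.1 p.2.2)
        (ξ n, u n, v n) ((x n : ℂ) • v n, q n, (x n : ℂ) • v' n) - μ n • T (ξ n) (u n) (v n) =
        (x n : ℂ) • (fderiv ℂ (fun p : E × E × E => T p.1 p.2.1 p.2.2)
        (ξ n, u n, v n) (v n, u' n, v' n) - m n • T (ξ n) (u n) (v n)) := by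
      rw [smul_sub, ← map_smul, smul_smul]
      simp only [Prod.smul_mk, hq, hμ]
    rw [h4, norm_smul, Complex.norm_real, Real.norm_of_nonneg (hx0 n).le]
    exact (mul_le_of_le_one_left (norm_nonneg _) (hx1 n)).trans (hlt n).le
  have h3 := sub_eq_zero.1 (tendsto_nhds_unique h1 h2)
  obtain ⟨h4, h5, -⟩ := hT.imm ξ₀ hO u₀ v₀ hind _ _ _ μ₀ h3
  have hx00 : x₀ = 0 := by
    have := (smul_eq_zero.1 h4).resolve_right hv0
    exact_mod_cast this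
  obtain ⟨α, β, hαβ⟩ := Submodule.mem_span_pair.1 h5
  have hq0 : q₀ = 0 := by
    have h6 : ‖q₀‖ ≤ ‖q₀ - (α • u₀ + β • v₀)‖ := by
      refine le_of_tendsto_of_tendsto' hql.norm
        ((hql.sub ((hul.const_smul α).add (hvl.const_smul β))).norm) fun n => ?_
      have hxne : (x n : ℂ) ≠ 0 := by exact_mod_cast (hx0 n).ne'
      have h7 : q n - (α • u n + β • v n) = (x n : ℂ) • (u' n -
          (((x n : ℂ)⁻¹ * α) • u n + ((x n : ℂ)⁻¹ * β) • v n)) := by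
        simp only [hq]
        rw [smul_sub, smul_add, smul_smul, smul_smul, ← mul_assoc, ← mul_assoc,
          mul_inv_cancel₀ hxne, one_mul, one_mul]
      rw [h7, hqn, norm_smul, Complex.norm_real, Real.norm_of_nonneg (hx0 n).le]
      exact mul_le_mul_of_nonneg_left (hmin n _ _) (hx0 n).le
    rw [hαβ, sub_self, norm_zero] at h6
    exact norm_le_zero_iff.1 h6
  have hμ0 : μ₀ = 0 := by
    have h6 : μ₀ • T ξ₀ u₀ v₀ = 0 := by
      rw [← h3, hx00, hq0, Complex.ofReal_zero, zero_smul, zero_smul]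
      exact map_zero _
    exact (smul_eq_zero.1 h6).resolve_right (hT.ne ξ₀ hO u₀ v₀ hind)
  have h6 : x₀ + ‖q₀‖ + ‖μ₀‖ = 1 := by
    have h7 := (hxl.add hql.norm).add hμl.norm
    simp only [hsum] at h7
    exact tendsto_nhds_unique h7 tendsto_const_nhds
  rw [hx00, hq0, hμ0, norm_zero, norm_zero] at h6
  norm_num at h6

/-- IMM: uniform immersivity -/
theorem imm_unif_pr (hT : TForm O L k T) (hO : IsOpen O) (hk : 0 < k) (hK : IsCompact K₀)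
    (hKO : K₀ ⊆ O) {c C C₂ c₀ : ℝ} (hc : 0 < c) (hc₀ : 0 < c₀) : ∃ κ > 0, ∀ ξ ∈ K₀,
      ∀ u v u' v' : E, c ≤ ‖v‖ → ‖v‖ ≤ C → ‖v'‖ ≤ C₂ → (∀ a : ℂ, c₀ * ‖u‖ ≤ ‖u - a • v‖) →
      ∀ m : ℂ, κ * ‖T ξ u v‖ ≤ ‖fderiv ℂ (fun p : E × E × E => T p.1 p.2.1 p.2.2) (ξ, u, v)
        (v, u', v') - m • T ξ u v‖ := by
  obtain ⟨κ, hκ, h⟩ := imm_star hT hK hKO (C := C) (C₂ := C₂) hc hc₀
  obtain ⟨B, hB⟩ := tv_upper_pr hT hK hKO (C := max 1 C)
  refine ⟨κ / (|B| + 1), by positivity, ?_⟩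
  intro ξ hξ u v u' v' hv1 hv2 hv' htr m
  by_cases hu : u = 0
  · rw [hu, hT.zero_left hk (hKO hξ), norm_zero, mul_zero]
    exact norm_nonneg _
  have hn : 0 < ‖u‖ := norm_pos_iff.2 hu
  obtain ⟨a, ha⟩ : ∃ a : ℂ, a = (‖u‖ : ℂ) := ⟨_, rfl⟩
  have han : ‖a‖ = ‖u‖ := by rw [ha, Complex.norm_real, Real.norm_of_nonneg hn.le]
  have ha0 : a ≠ 0 := by rw [← norm_pos_iff, han]; exact hn
  obtain ⟨w, hw⟩ : ∃ w, w = a⁻¹ • u := ⟨_, rfl⟩
  have hw1 : ‖w‖ = 1 := by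
    rw [hw, norm_smul, norm_inv, han, inv_mul_cancel₀ hn.ne']
  have huw : u = a • w := by rw [hw, smul_smul, mul_inv_cancel₀ ha0, one_smul]
  have htrw : ∀ b : ℂ, c₀ ≤ ‖w - b • v‖ := by
    intro b
    have h1 := htr (a * b)
    have h2 : u - (a * b) • v = a • (w - b • v) := by rw [smul_sub, smul_smul, ← huw]
    rw [h2, norm_smul, han, mul_comm c₀] at h1
    exact le_of_mul_le_mul_left h1 hn
  -- minimal representative
  obtain ⟨y, hy, hy'⟩ : ∃ y ∈ (Submodule.span ℂ {w, v} : Set E),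
      infDist (a⁻¹ • u') (Submodule.span ℂ {w, v}) = dist (a⁻¹ • u') y := by
    haveI : ProperSpace E := FiniteDimensional.proper ℂ E
    exact (Submodule.closed_of_finiteDimensional _).exists_infDist_eq_dist
      ⟨0, Submodule.zero_mem _⟩ _
  obtain ⟨α, β, hαβ⟩ := Submodule.mem_span_pair.1 hy
  have hmin : ∀ α' β' : ℂ, ‖a⁻¹ • u' - y‖ ≤ ‖a⁻¹ • u' - y - (α' • w + β' • v)‖ := by
    intro α' β'
    have h1 : y + (α' • w + β' • v) ∈ (Submodule.span ℂ {w, v} : Set E) := by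
      refine Submodule.add_mem _ hy ?_
      exact Submodule.mem_span_pair.2 ⟨α', β', rfl⟩
    have h2 := infDist_le_dist_of_mem (x := a⁻¹ • u') h1
    rw [hy', dist_eq_norm, dist_eq_norm] at h2
    rwa [sub_sub]
  have h1 := h ξ hξ w v (a⁻¹ • u' - y) v' hw1 hv1 hv2 hv' htrw hmin (m - k * α)
  have h2 : fderiv ℂ (fun p : E × E × E => T p.1 p.2.1 p.2.2) (ξ, w, v) (v, a⁻¹ • u' - y, v') -
      (m - k * α) • T ξ w v = fderiv ℂ (fun p : E × E × E => T p.1 p.2.1 p.2.2) (ξ, w, v)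
        (v, a⁻¹ • u', v') - m • T ξ w v := by
    have h3 := hT.fd_span (hKO hξ) α β w v
    have h4 : (v, a⁻¹ • u', v') = (v, a⁻¹ • u' - y, v') + ((0 : E), α • w + β • v, (0 : E)) := by
      rw [hαβ]
      simp
    rw [h4, map_add, h3, sub_smul]
    abel
  rw [h2] at h1
  have h3 := hT.fd_smul hO (hKO hξ) a w v v (a⁻¹ • u') v'
  rw [← huw, smul_smul, mul_inv_cancel₀ ha0, one_smul] at h3
  have h4 : T ξ u v = a ^ k • T ξ w v := by
    conv_lhs => rw [huw]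
    exact hT.smul_left (hKO hξ) a w v
  have h5 : fderiv ℂ (fun p : E × E × E => T p.1 p.2.1 p.2.2) (ξ, u, v) (v, u', v') -
      m • T ξ u v = a ^ k • (fderiv ℂ (fun p : E × E × E => T p.1 p.2.1 p.2.2) (ξ, w, v)
        (v, a⁻¹ • u', v') - m • T ξ w v) := by
    rw [h3, h4, smul_sub, smul_comm m]
  rw [h5, h4, norm_smul, norm_smul]
  have h6 : ‖T ξ w v‖ ≤ B := hB ξ hξ w v (by rw [hw1]; exact le_max_left _ _)
    (hv2.trans (le_max_right _ _))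
  have h7 : κ / (|B| + 1) * ‖T ξ w v‖ ≤ κ := by
    rw [div_mul_eq_mul_div, div_le_iff₀ (by positivity)]
    refine mul_le_mul_of_nonneg_left ?_ hκ.le
    have := le_abs_self B
    linarith
  calc κ / (|B| + 1) * (‖a ^ k‖ * ‖T ξ w v‖) = ‖a ^ k‖ * (κ / (|B| + 1) * ‖T ξ w v‖) := by ring
    _ ≤ ‖a ^ k‖ * ‖fderiv ℂ (fun p : E × E × E => T p.1 p.2.1 p.2.2) (ξ, w, v)
        (v, a⁻¹ • u', v') - m • T ξ w v‖ :=
      mul_le_mul_of_nonneg_left (h7.trans h1) (norm_nonneg _)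

/-- RC: relative continuity -/
theorem rel_cont_pr (hT : TForm O L k T) (hK : IsCompact K₀) (hKO : K₀ ⊆ O)
    {c C c₀ : ℝ} (hc : 0 < c) (hc₀ : 0 < c₀) {δ : ℝ} (hδ : 0 < δ) : ∃ ε > 0, ∀ ξ ∈ K₀,
      ∀ u v e : E, c ≤ ‖v‖ → ‖v‖ ≤ C → (∀ a : ℂ, c₀ * ‖u‖ ≤ ‖u - a • v‖) → ‖e‖ ≤ ε * ‖u‖ →
      ‖T ξ (u + e) v‖ ≤ (1 + δ) * ‖T ξ u v‖ ∧ ‖T ξ u v‖ ≤ (1 + δ) * ‖T ξ (u + e) v‖ := by
  haveI : ProperSpace E := FiniteDimensional.proper ℂ E
  have key : ∃ ε > 0, ∀ ξ ∈ K₀, ∀ u v e : E, ‖u‖ = 1 → c ≤ ‖v‖ → ‖v‖ ≤ C →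
      (∀ a : ℂ, c₀ ≤ ‖u - a • v‖) → ‖e‖ ≤ ε →
      ‖T ξ (u + e) v‖ ≤ (1 + δ) * ‖T ξ u v‖ ∧ ‖T ξ u v‖ ≤ (1 + δ) * ‖T ξ (u + e) v‖ := by
    by_contra hcon
    push Not at hcon
    choose ξ hξ u v e hu hv1 hv2 htr he hlt using fun n : ℕ =>
      hcon (1 / ((n : ℝ) + 1)) (by positivity)
    obtain ⟨U, hU⟩ : ∃ U : Ultrafilter ℕ, (U : Filter ℕ) ≤ atTop :=
      ⟨Ultrafilter.of atTop, Ultrafilter.of_le _⟩
    obtain ⟨ξ₀, hξ₀, hξl⟩ := ulim hK U hξ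
    obtain ⟨u₀, hu₀, hul⟩ := ulim (isCompact_sphere (0 : E) 1) U (f := u) (fun n => by
      rw [mem_sphere_zero_iff_norm]; exact hu n)
    obtain ⟨v₀, -, hvl⟩ := ulim (isCompact_closedBall (0 : E) C) U (f := v) (fun n => by
      rw [mem_closedBall_zero_iff]; exact hv2 n)
    have hel : Tendsto e U (𝓝 0) := by
      have h3 : Tendsto (fun n : ℕ => 1 / ((n : ℝ) + 1)) U (𝓝 0) :=
        tendsto_one_div_add_atTop_nhds_zero_nat.mono_left hU
      exact squeeze_zero_norm he h3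
    have hun : ‖u₀‖ = 1 := by rwa [mem_sphere_zero_iff_norm] at hu₀
    have hvn : c ≤ ‖v₀‖ := ge_of_tendsto' hvl.norm hv1
    have hv0 : v₀ ≠ 0 := by
      rw [← norm_pos_iff]
      linarith
    have hu0 : u₀ ≠ 0 := by
      rw [← norm_pos_iff, hun]
      exact one_pos
    have htr0 : ∀ a : ℂ, c₀ * ‖u₀‖ ≤ ‖u₀ - a • v₀‖ := by
      intro a
      rw [hun, mul_one]
      exact ge_of_tendsto' (hul.sub (hvl.const_smul a)).norm (fun n => htr n a)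
    have hind := indep_of_transv hc₀ hu0 hv0 htr0
    have hO : ξ₀ ∈ O := hKO hξ₀
    have hF := hT.hol ξ₀ hO u₀ v₀
    have h1 : Tendsto (fun n => ‖T (ξ n) (u n) (v n)‖) U (𝓝 ‖T ξ₀ u₀ v₀‖) := by
      have hp : Tendsto (fun n => (ξ n, u n, v n)) U (𝓝 (ξ₀, u₀, v₀)) :=
        hξl.prodMk_nhds (hul.prodMk_nhds hvl)
      exact (hF.continuousAt.tendsto.comp hp).norm
    have h2 : Tendsto (fun n => ‖T (ξ n) (u n + e n) (v n)‖) U (𝓝 ‖T ξ₀ u₀ v₀‖) := by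
      have hul' : Tendsto (fun n => u n + e n) U (𝓝 u₀) := by
        have := hul.add hel
        rwa [add_zero] at this
      have hp : Tendsto (fun n => (ξ n, u n + e n, v n)) U (𝓝 (ξ₀, u₀, v₀)) :=
        hξl.prodMk_nhds (hul'.prodMk_nhds hvl)
      exact (hF.continuousAt.tendsto.comp hp).norm
    have hpos : 0 < ‖T ξ₀ u₀ v₀‖ := norm_pos_iff.2 (hT.ne ξ₀ hO u₀ v₀ hind)
    have hlt' : ‖T ξ₀ u₀ v₀‖ < (1 + δ) * ‖T ξ₀ u₀ v₀‖ := by nlinarith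
    have h3 := h2.eventually_lt (h1.const_mul (1 + δ)) hlt'
    have h4 := h1.eventually_lt (h2.const_mul (1 + δ)) hlt'
    obtain ⟨n, h5, h6⟩ := (h3.and h4).exists
    exact absurd h6 (not_lt.2 (hlt n h5.le).le)
  obtain ⟨ε, hε, h⟩ := key
  refine ⟨ε, hε, fun ξ hξ u v e hv1 hv2 htr he => ?_⟩
  by_cases hu : u = 0
  · have he0 : e = 0 := by
      rw [hu, norm_zero, mul_zero] at he
      exact norm_le_zero_iff.1 he
    rw [hu, he0, add_zero]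
    have := norm_nonneg (T ξ 0 v)
    constructor <;> nlinarith
  have hn : 0 < ‖u‖ := norm_pos_iff.2 hu
  obtain ⟨a, ha⟩ : ∃ a : ℂ, a = (‖u‖ : ℂ) := ⟨_, rfl⟩
  have han : ‖a‖ = ‖u‖ := by rw [ha, Complex.norm_real, Real.norm_of_nonneg hn.le]
  have ha0 : a ≠ 0 := by rw [← norm_pos_iff, han]; exact hn
  obtain ⟨w, hw⟩ : ∃ w, w = a⁻¹ • u := ⟨_, rfl⟩
  have hw1 : ‖w‖ = 1 := by
    rw [hw, norm_smul, norm_inv, han, inv_mul_cancel₀ hn.ne']
  have huw : u = a • w := by rw [hw, smul_smul, mul_inv_cancel₀ ha0, one_smul]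
  have htrw : ∀ b : ℂ, c₀ ≤ ‖w - b • v‖ := by
    intro b
    have h1 := htr (a * b)
    have h2 : u - (a * b) • v = a • (w - b • v) := by rw [smul_sub, smul_smul, ← huw]
    rw [h2, norm_smul, han, mul_comm c₀] at h1
    exact le_of_mul_le_mul_left h1 hn
  have hew : e = a • (a⁻¹ • e) := by rw [smul_smul, mul_inv_cancel₀ ha0, one_smul]
  have hen : ‖a⁻¹ • e‖ ≤ ε := by
    rw [norm_smul, norm_inv, han, inv_mul_le_iff₀ hn, mul_comm]
    exact he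
  have h1 := h ξ hξ w v (a⁻¹ • e) hw1 hv1 hv2 htrw hen
  have h2 : T ξ u v = a ^ k • T ξ w v := by
    conv_lhs => rw [huw]
    exact hT.smul_left (hKO hξ) a w v
  have h3 : T ξ (u + e) v = a ^ k • T ξ (w + a⁻¹ • e) v := by
    have h4 : u + e = a • (w + a⁻¹ • e) := by rw [smul_add, ← hew, ← huw]
    rw [h4]
    exact hT.smul_left (hKO hξ) a _ v
  rw [h2, h3, norm_smul, norm_smul]
  have h4 : 0 ≤ ‖a ^ k‖ := norm_nonneg _
  constructor
  · calc ‖a ^ k‖ * ‖T ξ (w + a⁻¹ • e) v‖ ≤ ‖a ^ k‖ * ((1 + δ) * ‖T ξ w v‖) :=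
          mul_le_mul_of_nonneg_left h1.1 h4
      _ = (1 + δ) * (‖a ^ k‖ * ‖T ξ w v‖) := by ring
  · calc ‖a ^ k‖ * ‖T ξ w v‖ ≤ ‖a ^ k‖ * ((1 + δ) * ‖T ξ (w + a⁻¹ • e) v‖) :=
          mul_le_mul_of_nonneg_left h1.2 h4
      _ = (1 + δ) * (‖a ^ k‖ * ‖T ξ (w + a⁻¹ • e) v‖) := by ring

end forms

end Pool.Agent.BR
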