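import Mathlib

/-! # MP_45e720_ag, BrodyRigidity: the submean inequality and the iteration on a half-plane -/

set_option autoImplicit false

open Filter Topology Metric Set

namespace Pool.Agent.BR

/-- Bessel's inequality for two orthonormal vectors, in the form needed below -/
theorem key_bessel {W : Type*} [NormedAddCommGroup W] [InnerProductSpace ℂ W] {e e' w : W}
    (he : ‖e‖ = 1) (he' : ‖e'‖ = 1) (hee : inner ℂ e e' = 0) {μ : ℝ} (hμ : 0 ≤ μ) :
    ‖inner ℂ e w‖ + μ * ‖inner ℂ e' w‖ ≤ √(1 + μ ^ 2) * ‖w‖ := by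
  have hv : Orthonormal ℂ ![e, e'] := by
    rw [orthonormal_iff_ite]
    intro i j
    have h1 : inner ℂ e e = (1 : ℂ) := by
      rw [inner_self_eq_norm_sq_to_K, he]
      simp
    have h2 : inner ℂ e' e' = (1 : ℂ) := by
      rw [inner_self_eq_norm_sq_to_K, he']
      simp
    have h3 : inner ℂ e' e = (0 : ℂ) := by
      rw [← inner_conj_symm, hee, map_zero]
    fin_cases i <;> fin_cases j <;> simp [he, he', h3, hee]
  have hb := hv.sum_inner_products_le (x := w) (s := Finset.univ)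
  simp only [Fin.sum_univ_two, Matrix.cons_val_zero, Matrix.cons_val_one] at hb
  have h4 : (‖inner ℂ e w‖ + μ * ‖inner ℂ e' w‖) ^ 2 ≤ (1 + μ ^ 2) * ‖w‖ ^ 2 := by
    nlinarith [sq_nonneg (μ * ‖inner ℂ e w‖ - ‖inner ℂ e' w‖), sq_nonneg μ]
  have h5 : 0 ≤ ‖inner ℂ e w‖ + μ * ‖inner ℂ e' w‖ := by positivity
  calc ‖inner ℂ e w‖ + μ * ‖inner ℂ e' w‖ = √((‖inner ℂ e w‖ + μ * ‖inner ℂ e' w‖) ^ 2) :=
        (Real.sqrt_sq h5).symm
    _ ≤ √((1 + μ ^ 2) * ‖w‖ ^ 2) := Real.sqrt_le_sqrt h4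
    _ = √(1 + μ ^ 2) * ‖w‖ := by
        rw [Real.sqrt_mul (by positivity), Real.sqrt_sq (norm_nonneg _)]

/-- KEY: the submean inequality for a holomorphic vector valued function whose derivative at the
centre is not proportional to its value -/
theorem key_ineq {W : Type*} [NormedAddCommGroup W] [InnerProductSpace ℂ W] {T : ℂ → W} {z₀ : ℂ}
    {r κ : ℝ} (hr : 0 < r) (hκ : 0 < κ) (hT : DiffContOnCl ℂ T (ball z₀ r)) {T' : W}
    (hT' : HasDerivAt T T' z₀) (him : ∀ a : ℂ, κ * ‖T z₀‖ ≤ ‖T' - a • T z₀‖) {B : ℝ} {β : ℂ}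
    (hb : ∀ z, ‖z - z₀‖ = r → ‖T z‖ ≤ Real.exp (B - (β * z).re)) :
    ‖T z₀‖ * √(1 + (κ * r) ^ 2) ≤ Real.exp (B - (β * z₀).re) := by
  by_cases h0 : T z₀ = 0
  · rw [h0, norm_zero, zero_mul]
    exact (Real.exp_pos _).le
  obtain ⟨N, hN⟩ : ∃ N, N = ‖T z₀‖ := ⟨_, rfl⟩
  have hNpos : 0 < N := by rw [hN]; exact norm_pos_iff.2 h0
  obtain ⟨a, ha⟩ : ∃ a : ℂ, a = inner ℂ (T z₀) T' / (N : ℂ) ^ 2 := ⟨_, rfl⟩
  obtain ⟨u, hu⟩ : ∃ u, u = T' - a • T z₀ := ⟨_, rfl⟩
  have hNc : (N : ℂ) ≠ 0 := by exact_mod_cast hNpos.ne'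
  have hself : inner ℂ (T z₀) (T z₀) = (N : ℂ) ^ 2 := by
    rw [inner_self_eq_norm_sq_to_K, hN]
    simp
  have horth : inner ℂ (T z₀) u = (0 : ℂ) := by
    rw [hu, inner_sub_right, inner_smul_right, hself, ha]
    field_simp
    ring
  have hp := him a
  rw [← hu, ← hN] at hp
  obtain ⟨p, hpd⟩ : ∃ p, p = ‖u‖ := ⟨_, rfl⟩
  rw [← hpd] at hp
  have hppos : 0 < p := lt_of_lt_of_le (by positivity) hp
  have hpc : (p : ℂ) ≠ 0 := by exact_mod_cast hppos.ne'
  obtain ⟨e, he⟩ : ∃ e : W, e = (N : ℂ)⁻¹ • T z₀ := ⟨_, rfl⟩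
  obtain ⟨e', he'⟩ : ∃ e' : W, e' = (p : ℂ)⁻¹ • u := ⟨_, rfl⟩
  have he1 : ‖e‖ = 1 := by
    rw [he, norm_smul, norm_inv, Complex.norm_real, Real.norm_of_nonneg hNpos.le, ← hN,
      inv_mul_cancel₀ hNpos.ne']
  have he2 : ‖e'‖ = 1 := by
    rw [he', norm_smul, norm_inv, Complex.norm_real, Real.norm_of_nonneg hppos.le, ← hpd,
      inv_mul_cancel₀ hppos.ne']
  have hee : inner ℂ e e' = (0 : ℂ) := by
    rw [he, he', inner_smul_left, inner_smul_right, horth, mul_zero, mul_zero]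
  have hconj : ∀ x : ℝ, (starRingEnd ℂ) ((x : ℂ)⁻¹) = (x : ℂ)⁻¹ := by
    intro x
    rw [map_inv₀, Complex.conj_ofReal]
  have hT0 : inner ℂ e (T z₀) = (N : ℂ) := by
    rw [he, inner_smul_left, hself, hconj]
    field_simp
  have hT0' : inner ℂ e' (T z₀) = (0 : ℂ) := by
    rw [he', inner_smul_left, ← inner_conj_symm, horth, map_zero, mul_zero]
  have hT1' : inner ℂ e' T' = (p : ℂ) := by
    have h1 : T' = u + a • T z₀ := by rw [hu]; abel
    have h2 : inner ℂ u u = (p : ℂ) ^ 2 := by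
      rw [inner_self_eq_norm_sq_to_K, hpd]
      simp
    have h3 : inner ℂ u (T z₀) = (0 : ℂ) := by rw [← inner_conj_symm, horth, map_zero]
    rw [h1, inner_add_right, inner_smul_right, hT0', mul_zero, add_zero, he', inner_smul_left, h2,
      hconj]
    field_simp
  -- the auxiliary function
  obtain ⟨μ, hμ⟩ : ∃ μ, μ = κ * r := ⟨_, rfl⟩
  have hμ0 : 0 ≤ μ := by rw [hμ]; positivity
  obtain ⟨g, hg⟩ : ∃ g : ℂ → ℂ, g = fun z => inner ℂ e' (T z) := ⟨_, rfl⟩
  have hgd : DiffContOnCl ℂ g (ball z₀ r) := by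
    rw [hg]
    have h := (innerSL ℂ e').differentiable.comp_diffContOnCl hT
    exact h
  have hfd : DiffContOnCl ℂ (fun z => inner ℂ e (T z) : ℂ → ℂ) (ball z₀ r) :=
    (innerSL ℂ e).differentiable.comp_diffContOnCl hT
  have hg' : HasDerivAt g (p : ℂ) z₀ := by
    rw [hg, ← hT1']
    exact (innerSL ℂ e').hasFDerivAt.comp_hasDerivAt z₀ hT'
  have hg0 : g z₀ = 0 := by rw [hg]; exact hT0'
  have hdd : DiffContOnCl ℂ (dslope g z₀) (ball z₀ r) := by
    constructor
    · rw [Complex.differentiableOn_dslope (ball_mem_nhds z₀ hr)]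
      exact hgd.differentiableOn
    · rw [closure_ball z₀ hr.ne', continuousOn_dslope (closedBall_mem_nhds z₀ hr)]
      refine ⟨?_, hg'.differentiableAt⟩
      have := hgd.continuousOn
      rwa [closure_ball z₀ hr.ne'] at this
  obtain ⟨F, hF⟩ : ∃ F : ℂ → ℂ, F = fun z =>
      (inner ℂ e (T z) + (μ * r : ℝ) * dslope g z₀ z) * Complex.exp (β * z) := ⟨_, rfl⟩
  have hFd : DiffContOnCl ℂ F (ball z₀ r) := by
    rw [hF]
    have h1 : DiffContOnCl ℂ (fun z => ((μ * r : ℝ) : ℂ) * dslope g z₀ z) (ball z₀ r) :=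
      hdd.const_smul ((μ * r : ℝ) : ℂ)
    have h2 : DiffContOnCl ℂ (fun z : ℂ => Complex.exp (β * z)) (ball z₀ r) := by
      apply Differentiable.diffContOnCl
      fun_prop
    exact (hfd.add h1).smul h2
  have hbound : ∀ z ∈ frontier (ball z₀ r), ‖F z‖ ≤ √(1 + μ ^ 2) * Real.exp B := by
    intro z hz
    rw [frontier_ball z₀ hr.ne', mem_sphere_iff_norm] at hz
    have hzne : z ≠ z₀ := by
      rintro rfl
      rw [sub_self, norm_zero] at hz
      exact hr.ne hz
    have h1 : dslope g z₀ z = (z - z₀)⁻¹ * g z := by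
      rw [dslope_of_ne _ hzne, slope_def_field, hg0, sub_zero]
      field_simp
    have h2 : ‖F z‖ ≤ (‖inner ℂ e (T z)‖ + μ * ‖(inner ℂ e' (T z) : ℂ)‖) *
        Real.exp ((β * z).re) := by
      rw [hF]
      simp only
      rw [norm_mul, Complex.norm_exp]
      refine mul_le_mul_of_nonneg_right ?_ (Real.exp_pos _).le
      refine (norm_add_le _ _).trans ?_
      rw [h1, norm_mul, norm_mul, norm_inv, hz, Complex.norm_real,
        Real.norm_of_nonneg (by positivity), hg]
      have h3 : μ * r * (r⁻¹ * ‖(inner ℂ e' (T z) : ℂ)‖) = μ * ‖(inner ℂ e' (T z) : ℂ)‖ := by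
        field_simp
      rw [h3]
    have h3 := key_bessel (w := T z) he1 he2 hee hμ0
    calc ‖F z‖ ≤ (√(1 + μ ^ 2) * ‖T z‖) * Real.exp ((β * z).re) :=
          h2.trans (mul_le_mul_of_nonneg_right h3 (Real.exp_pos _).le)
      _ ≤ (√(1 + μ ^ 2) * Real.exp (B - (β * z).re)) * Real.exp ((β * z).re) := by
          gcongr
          exact hb z hz
      _ = √(1 + μ ^ 2) * Real.exp B := by
          rw [mul_assoc, ← Real.exp_add]
          congr 2
          ring
  have hmax := Complex.norm_le_of_forall_mem_frontier_norm_le isBounded_ball hFd hbound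
    (subset_closure (mem_ball_self hr))
  have hF0 : ‖F z₀‖ = (N + μ * r * p) * Real.exp ((β * z₀).re) := by
    rw [hF]
    simp only
    rw [hT0, dslope_same, hg'.deriv, norm_mul, Complex.norm_exp]
    congr 1
    rw [← Complex.ofReal_mul, ← Complex.ofReal_add, Complex.norm_real,
      Real.norm_of_nonneg (by positivity)]
  rw [hF0] at hmax
  have h6 : N * (1 + μ ^ 2) ≤ N + μ * r * p := by
    have : κ * N * (μ * r) ≤ p * (μ * r) := mul_le_mul_of_nonneg_right hp (by positivity)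
    calc N * (1 + μ ^ 2) = N + κ * N * (μ * r) := by rw [hμ]; ring
      _ ≤ N + μ * r * p := by linarith
  have hs : √(1 + μ ^ 2) * √(1 + μ ^ 2) = 1 + μ ^ 2 := Real.mul_self_sqrt (by positivity)
  have hspos : 0 < √(1 + μ ^ 2) := Real.sqrt_pos.2 (by positivity)
  have h7 : √(1 + μ ^ 2) * (N * √(1 + μ ^ 2) * Real.exp ((β * z₀).re)) ≤
      √(1 + μ ^ 2) * Real.exp B := by
    calc √(1 + μ ^ 2) * (N * √(1 + μ ^ 2) * Real.exp ((β * z₀).re))
        = N * (√(1 + μ ^ 2) * √(1 + μ ^ 2)) * Real.exp ((β * z₀).re) := by ring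
      _ = N * (1 + μ ^ 2) * Real.exp ((β * z₀).re) := by rw [hs]
      _ ≤ (N + μ * r * p) * Real.exp ((β * z₀).re) :=
          mul_le_mul_of_nonneg_right h6 (Real.exp_pos _).le
      _ ≤ _ := hmax
  have h8 := le_of_mul_le_mul_left h7 hspos
  rw [← hN, ← hμ, Real.exp_sub, le_div_iff₀ (Real.exp_pos _)]
  exact h8

/-- ITER: a bounded function on a half-plane which satisfies the strict submean inequality for
all exponential bounds vanishes at depth more than `r` -/
theorem iterate {val dep : ℂ → ℝ} {r c B : ℝ} (hr : 0 < r) (hc : 0 < c)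
    (hdep : ∀ z z', ‖z - z'‖ ≤ r → dep z' - r ≤ dep z)
    (h0 : ∀ z, 0 < dep z → val z ≤ Real.exp B)
    (h1 : ∀ z₀, r < dep z₀ → ∀ B' b : ℝ,
      (∀ z, ‖z - z₀‖ = r → val z ≤ Real.exp (B' - b * dep z)) →
      val z₀ ≤ Real.exp (B' - c - b * dep z₀)) :
    ∀ z, r < dep z → val z ≤ 0 := by
  have inner : ∀ (n k : ℕ), (∀ z, 0 < dep z →
      val z ≤ Real.exp (B + n * c - n * (c / r) * dep z)) →
      ∀ z, k * r < dep z → val z ≤ Real.exp (B + n * c - k * c - n * (c / r) * dep z) := by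
    intro n k hn
    induction k with
    | zero =>
      intro z hz
      have hz' : 0 < dep z := by simpa using hz
      have := hn z hz'
      simpa using this
    | succ k ih =>
      intro z hz
      push_cast at hz ⊢
      have hkr : (k : ℝ) * r < dep z - r := by linarith
      have hk0 : 0 ≤ (k : ℝ) * r := by positivity
      have := h1 z (by linarith) (B + n * c - k * c) (n * (c / r)) (fun w hw => by
        refine ih w ?_
        have := hdep w z hw.le
        linarith)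
      have he : B + ↑n * c - (↑k + 1) * c - ↑n * (c / r) * dep z =
          B + ↑n * c - ↑k * c - c - ↑n * (c / r) * dep z := by ring
      rw [he]
      exact this
  have main : ∀ n : ℕ, ∀ z, 0 < dep z → val z ≤ Real.exp (B + n * c - n * (c / r) * dep z) := by
    intro n
    induction n with
    | zero =>
      intro z hz
      simpa using h0 z hz
    | succ n ih =>
      intro z hz
      obtain ⟨k, hk1, hk2⟩ : ∃ k : ℕ, k * r < dep z ∧ dep z ≤ (k + 1) * r := by
        obtain ⟨m, hm⟩ := exists_nat_ge (dep z / r)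
        have hex : ∃ m : ℕ, dep z ≤ m * r := ⟨m, by rwa [div_le_iff₀ hr] at hm⟩
        classical
        obtain ⟨m0, hm0, hmin⟩ : ∃ m : ℕ, dep z ≤ m * r ∧ ∀ m' : ℕ, m' < m → ¬ dep z ≤ m' * r :=
          ⟨Nat.find hex, Nat.find_spec hex, fun m' h => Nat.find_min hex h⟩
        have hm1 : m0 ≠ 0 := by
          rintro rfl
          simp only [Nat.cast_zero, zero_mul] at hm0
          linarith
        obtain ⟨k, rfl⟩ := Nat.exists_eq_succ_of_ne_zero hm1
        refine ⟨k, not_le.1 (hmin k (Nat.lt_succ_self k)), ?_⟩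
        push_cast at hm0
        exact hm0
      refine (inner n k ih z hk1).trans ?_
      apply Real.exp_le_exp.2
      push_cast
      have h2 : c / r * dep z ≤ (k + 1) * c := by
        calc c / r * dep z ≤ c / r * ((k + 1) * r) :=
              mul_le_mul_of_nonneg_left hk2 (by positivity)
          _ = (k + 1) * c := by field_simp
      nlinarith
  intro z hz
  have hz0 : 0 < dep z := by linarith
  have hlim : Tendsto (fun n : ℕ => Real.exp (B + n * c - n * (c / r) * dep z)) atTop (𝓝 0) := by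
    refine Real.tendsto_exp_atBot.comp ?_
    have h2 : (fun n : ℕ => B + n * c - n * (c / r) * dep z) =
        fun n : ℕ => B + -((n : ℝ) * (c / r * (dep z - r))) := by
      funext n
      field_simp
      ring
    rw [h2]
    refine tendsto_atBot_add_const_left _ _ ?_
    refine tendsto_neg_atTop_atBot.comp ?_
    refine Tendsto.atTop_mul_const ?_ tendsto_natCast_atTop_atTop
    have : 0 < dep z - r := by linarith
    positivity
  exact ge_of_tendsto' hlim fun n => main n z hz0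

end Pool.Agent.BR
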