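import Pool.Agent.Lib_helper26.BR.Forms

/-! # MP_45e720_ag, BrodyRigidity: submean inequality and comparison for the displacement -/

set_option autoImplicit false

open Filter Topology Metric Set

namespace Pool.Agent.BR

section tv

variable {E : Type} [NormedAddCommGroup E] [NormedSpace ℂ E] [FiniteDimensional ℂ E]
  {O K₀ : Set E} {L k : ℕ} {T : E → E → E → EuclideanSpace ℂ (Fin L)}

/-- the displacement is analytic, with its derivative -/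
theorem tv_an (hT : TForm O L k T) {c C C₂ C₃ ρ₀ r₀ : ℝ} (hρ : ρ₀ ≤ r₀) {G H : ℂ → E}
    {z₀ w₀ : ℂ} {l : E →L[ℂ] ℂ} {t : ℂ → ℂ} (hG : GC c C C₂ G z₀ r₀) (hH : GC c C C₂ H w₀ r₀)
    (hLO : LO c C₃ ρ₀ r₀ G H z₀ w₀ l t) {z : ℂ} (hz : z ∈ ball z₀ ρ₀) (hO : G z ∈ O) :
    AnalyticAt ℂ (TV T G H t) z ∧ HasDerivAt (TV T G H t)
      (fderiv ℂ (fun p : E × E × E => T p.1 p.2.1 p.2.2) (G z, H (t z) - G z, deriv G z)
        (deriv G z, deriv (fun z => H (t z) - G z) z, deriv (deriv G) z)) z := by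
  haveI : CompleteSpace E := FiniteDimensional.complete ℂ E
  have hz' : z ∈ ball z₀ r₀ := ball_subset_ball hρ hz
  have h1 : AnalyticAt ℂ G z := hG.an z hz'
  have h2 : AnalyticAt ℂ (fun z => H (t z) - G z) z := by
    refine AnalyticAt.sub ?_ h1
    exact AnalyticAt.comp (g := H) (f := t) (hH.an _ (hLO.t_mem z hz)) (hLO.t_an z hz)
  have h3 : AnalyticAt ℂ (deriv G) z := h1.deriv
  have h4 : AnalyticAt ℂ (fun z => (G z, H (t z) - G z, deriv G z)) z := h1.prod (h2.prod h3)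
  have h5 := hT.hol (G z) hO (H (t z) - G z) (deriv G z)
  refine ⟨AnalyticAt.comp (g := fun p : E × E × E => T p.1 p.2.1 p.2.2)
    (f := fun z => (G z, H (t z) - G z, deriv G z)) h5 h4, ?_⟩
  have h6 : HasDerivAt (fun z => (G z, H (t z) - G z, deriv G z))
      (deriv G z, deriv (fun z => H (t z) - G z) z, deriv (deriv G) z) z :=
    h1.differentiableAt.hasDerivAt.prodMk
      (h2.differentiableAt.hasDerivAt.prodMk h3.differentiableAt.hasDerivAt)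
  exact HasFDerivAt.comp_hasDerivAt (f := fun z => (G z, H (t z) - G z, deriv G z)) z
    h5.differentiableAt.hasFDerivAt h6

/-- TVS: the submean inequality for the displacement of a local match -/
theorem tv_submean_pr (hT : TForm O L k T) (hO : IsOpen O) (hk : 0 < k) (hK : IsCompact K₀)
    (hKO : K₀ ⊆ O) {c C C₂ C₃ ρ₀ r₀ : ℝ} (hc : 0 < c) (hC : 0 < C) (hρ : ρ₀ ≤ r₀) : ∃ κ > 0,
      ∀ (G H : ℂ → E) (z₀ w₀ : ℂ) (l : E →L[ℂ] ℂ) (t : ℂ → ℂ), GC c C C₂ G z₀ r₀ →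
      GC c C C₂ H w₀ r₀ → LO c C₃ ρ₀ r₀ G H z₀ w₀ l t → G z₀ ∈ K₀ → ∀ ρ, 0 < ρ → ρ < ρ₀ →
      (∀ z ∈ closedBall z₀ ρ, G z ∈ O) → ∀ (B : ℝ) (β : ℂ),
      (∀ z, ‖z - z₀‖ = ρ → ‖TV T G H t z‖ ≤ Real.exp (B - (β * z).re)) →
      ‖TV T G H t z₀‖ * √(1 + (κ * ρ) ^ 2) ≤ Real.exp (B - (β * z₀).re) := by
  obtain ⟨κ, hκ, h⟩ := imm_unif_pr hT hO hk hK hKO (C := C) (C₂ := C₂) hc
    (c₀ := c / (c + 2 * C)) (by positivity)
  refine ⟨κ, hκ, ?_⟩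
  intro G H z₀ w₀ l t hG hH hLO hz₀ ρ hρ0 hρ1 hGO B β hb
  have hρ₀ : 0 < ρ₀ := hρ0.trans hρ1
  have hr₀ : 0 < r₀ := hρ₀.trans_le hρ
  have hzm : z₀ ∈ ball z₀ ρ₀ := mem_ball_self hρ₀
  have hzm' : z₀ ∈ ball z₀ r₀ := mem_ball_self hr₀
  have h1 := (tv_an hT hρ hG hH hLO hzm (hKO hz₀)).2
  have h2 : DiffContOnCl ℂ (TV T G H t) (ball z₀ ρ) := by
    have h3 : DifferentiableOn ℂ (TV T G H t) (closure (ball z₀ ρ)) := by
      intro z hz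
      rw [closure_ball z₀ hρ0.ne'] at hz
      exact (tv_an hT hρ hG hH hLO (closedBall_subset_ball hρ1 hz)
        (hGO z hz)).1.differentiableAt.differentiableWithinAt
    exact h3.diffContOnCl
  refine key_ineq hρ0 hκ h2 h1 (fun a => ?_) hb
  exact h (G z₀) hz₀ (H (t z₀) - G z₀) (deriv G z₀) _ _ (hG.lo z₀ hzm') (hG.up z₀ hzm')
    (hG.acc z₀ hzm') (fun a => hLO.transv hc hC hG hρ hzm a) a

/-- CMP: comparison of the displacements with respect to different charts and linear forms -/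
theorem compare_pr (hT : TForm O L k T) (hK : IsCompact K₀) (hKO : K₀ ⊆ O)
    {c C C₂ C₃ ρ₀ r₀ ρ' M c₀ : ℝ} (hc : 0 < c) (hC : 0 < C) (hC₂ : 0 ≤ C₂) (hC₃ : 0 < C₃)
    (hρ₀ : 0 < ρ₀) (hρ : ρ₀ ≤ r₀) (hρ' : 0 < ρ') (hM : 1 ≤ M) (hc₀ : 0 < c₀) {δ : ℝ}
    (hδ : 0 < δ) : ∃ ε > 0, ∀ (G H : ℂ → E) (z₀ w₀ : ℂ) (l : E →L[ℂ] ℂ) (t t' : ℂ → ℂ),
      GC c C C₂ G z₀ r₀ → GC c C C₂ H w₀ r₀ → LO c C₃ ρ₀ r₀ G H z₀ w₀ l t → G z₀ ∈ K₀ →
      (∀ z ∈ ball z₀ ρ', AnalyticAt ℂ t' z ∧ t' z ∈ ball w₀ r₀ ∧ ‖H (t' z) - G z‖ ≤ ε) →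
      ∀ (ψ : E → E) (ξ η v : E) (D : E →L[ℂ] E), Tra M ψ ξ D → ψ ξ = G z₀ →
      ψ (ξ + η) = H (t' z₀) → D v = deriv G z₀ → ‖η‖ ≤ ε →
      (∀ a : ℂ, c₀ * ‖η‖ ≤ ‖η - a • v‖) →
      ‖T (G z₀) (D η) (D v)‖ ≤ (1 + δ) * ‖TV T G H t z₀‖ ∧
        ‖TV T G H t z₀‖ ≤ (1 + δ) * ‖T (G z₀) (D η) (D v)‖ := by
  haveI : CompleteSpace E := FiniteDimensional.complete ℂ E
  have hM0 : 0 < M := one_pos.trans_le hM
  have hr₀ : 0 < r₀ := hρ₀.trans_le hρ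
  obtain ⟨ε₁, hε₁, h⟩ := rel_cont_pr hT hK hKO (C := C) hc (c₀ := c₀ / M ^ 2) (by positivity) hδ
  -- the constants
  obtain ⟨ρ₂, hρ₂⟩ : ∃ ρ₂, ρ₂ = min ρ' r₀ / 2 := ⟨_, rfl⟩
  have hρ₂0 : 0 < ρ₂ := by rw [hρ₂]; positivity
  have hρ₂1 : ρ₂ < ρ' := by
    have : min ρ' r₀ ≤ ρ' := min_le_left _ _
    have h2 : 0 < min ρ' r₀ := lt_min hρ' hr₀
    rw [hρ₂]
    linarith
  have hρ₂2 : ρ₂ < r₀ := by
    have : min ρ' r₀ ≤ r₀ := min_le_right _ _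
    have h2 : 0 < min ρ' r₀ := lt_min hρ' hr₀
    rw [hρ₂]
    linarith
  -- `A ε ‖η‖` bounds the error
  obtain ⟨A, hA⟩ : ∃ A, A = M + 2 * M * C₃ * (2 * C / c / ρ₂ + C₂ * (2 * M * C₃)) := ⟨_, rfl⟩
  have hA0 : 0 < A := by rw [hA]; positivity
  obtain ⟨ε, hε⟩ : ∃ ε, ε = min (min (1 / M) (c * ρ₂ / 2)) (min 1 (ε₁ / (A * M))) := ⟨_, rfl⟩
  have hε0 : 0 < ε := by rw [hε]; positivity
  have hεM : ε * M ≤ 1 := by
    have h1 : ε ≤ 1 / M := by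
      rw [hε]
      exact (min_le_left _ _).trans (min_le_left _ _)
    rwa [le_div_iff₀ hM0] at h1
  have hεc : ε / ρ₂ ≤ c / 2 := by
    have h1 : ε ≤ c * ρ₂ / 2 := by
      rw [hε]
      exact (min_le_left _ _).trans (min_le_right _ _)
    rw [div_le_iff₀ hρ₂0]
    linarith
  have hεA : A * ε ≤ ε₁ / M := by
    have h1 : ε ≤ ε₁ / (A * M) := by
      rw [hε]
      exact (min_le_right _ _).trans (min_le_right _ _)
    rw [le_div_iff₀ (by positivity)] at h1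
    rw [le_div_iff₀ hM0]
    linarith
  refine ⟨ε, hε0, ?_⟩
  intro G H z₀ w₀ l t t' hG hH hLO hz₀ ht' ψ ξ η v D hψ hψ1 hψ2 hDv hη htr
  have hzm : z₀ ∈ ball z₀ ρ₀ := mem_ball_self hρ₀
  have hzm' : z₀ ∈ ball z₀ r₀ := mem_ball_self hr₀
  obtain ⟨hta, htm, htε⟩ := ht' z₀ (mem_ball_self hρ')
  -- the displacement for `t'`
  obtain ⟨η₁, hη₁⟩ : ∃ η₁, η₁ = H (t' z₀) - G z₀ := ⟨_, rfl⟩
  have hquad : ‖η₁ - D η‖ ≤ M * ‖η‖ ^ 2 := by
    rw [hη₁, ← hψ1, ← hψ2]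
    refine hψ.quad η ?_
    calc ‖η‖ * M ≤ ε * M := mul_le_mul_of_nonneg_right hη hM0.le
      _ ≤ 1 := hεM
  have hη0 := norm_nonneg η
  have hη₁n : ‖η₁‖ ≤ 2 * M * ‖η‖ := by
    have h1 : η₁ = (η₁ - D η) + D η := by abel
    have h2 : M * ‖η‖ ^ 2 ≤ M * ‖η‖ := by
      have h3 : ‖η‖ ≤ 1 := by
        refine hη.trans ?_
        rw [hε]
        exact (min_le_right _ _).trans (min_le_left _ _)
      nlinarith [mul_nonneg hM0.le hη0]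
    calc ‖η₁‖ = ‖(η₁ - D η) + D η‖ := by rw [← h1]
      _ ≤ ‖η₁ - D η‖ + ‖D η‖ := norm_add_le _ _
      _ ≤ M * ‖η‖ + M * ‖η‖ := add_le_add (hquad.trans h2) (hψ.up η)
      _ = _ := by ring
  -- the derivative of `H ∘ t' - G`
  have hHt : ∀ z ∈ ball z₀ ρ', AnalyticAt ℂ (fun z => H (t' z)) z := fun z hz =>
    AnalyticAt.comp (g := H) (f := t') (hH.an _ (ht' z hz).2.1) (ht' z hz).1
  have hder : ‖deriv (fun z => H (t' z) - G z) z₀‖ ≤ ε / ρ₂ := by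
    refine Complex.norm_deriv_le_of_forall_mem_sphere_norm_le hρ₂0 ?_ ?_
    · refine DifferentiableOn.diffContOnCl ?_
      intro z hz
      rw [closure_ball z₀ hρ₂0.ne'] at hz
      exact ((hHt z (closedBall_subset_ball hρ₂1 hz)).differentiableAt.sub
        (hG.an z (closedBall_subset_ball hρ₂2 hz)).differentiableAt).differentiableWithinAt
    · intro z hz
      exact (ht' z (closedBall_subset_ball hρ₂1 (sphere_subset_closedBall hz))).2.2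
  have hchain : deriv t' z₀ • deriv H (t' z₀) = deriv G z₀ +
      deriv (fun z => H (t' z) - G z) z₀ := by
    have h1 : HasDerivAt (fun z => H (t' z)) (deriv t' z₀ • deriv H (t' z₀)) z₀ := by
      have h2 : HasDerivAt t' (deriv t' z₀) z₀ := hta.differentiableAt.hasDerivAt
      have h3 : HasDerivAt H (deriv H (t' z₀)) (t' z₀) :=
        (hH.an _ htm).differentiableAt.hasDerivAt
      exact h3.scomp z₀ h2
    have h2 : HasDerivAt G (deriv G z₀) z₀ := (hG.an z₀ hzm').differentiableAt.hasDerivAt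
    have h3 := (h1.sub h2).deriv
    have h4 : deriv (fun z => H (t' z) - G z) z₀ = deriv t' z₀ • deriv H (t' z₀) - deriv G z₀ :=
      h3
    rw [h4]
    abel
  have htl : c / (2 * C) ≤ ‖deriv t' z₀‖ := by
    have h1 : c ≤ ‖deriv G z₀‖ := hG.lo z₀ hzm'
    have h2 : ‖deriv G z₀‖ ≤ ‖deriv t' z₀ • deriv H (t' z₀)‖ +
        ‖deriv (fun z => H (t' z) - G z) z₀‖ := by
      have h3 : deriv G z₀ = deriv t' z₀ • deriv H (t' z₀) -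
          deriv (fun z => H (t' z) - G z) z₀ := by rw [hchain]; abel
      calc ‖deriv G z₀‖ = ‖deriv t' z₀ • deriv H (t' z₀) -
          deriv (fun z => H (t' z) - G z) z₀‖ := by rw [← h3]
        _ ≤ _ := norm_sub_le _ _
    have h3 : ‖deriv t' z₀ • deriv H (t' z₀)‖ ≤ ‖deriv t' z₀‖ * C := by
      rw [norm_smul]
      exact mul_le_mul_of_nonneg_left (hH.up _ htm) (norm_nonneg _)
    rw [div_le_iff₀ (by positivity)]
    linarith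
  have htne : deriv t' z₀ ≠ 0 := by
    rw [← norm_pos_iff]
    have : 0 < c / (2 * C) := by positivity
    linarith
  -- comparison of `t z₀` and `t' z₀`
  obtain ⟨d, hd⟩ : ∃ d, d = t z₀ - t' z₀ := ⟨_, rfl⟩
  have hdn : ‖d‖ ≤ 2 * M * C₃ * ‖η‖ := by
    have h1 := hLO.uniq z₀ hzm (t' z₀) htm
    rw [← hd, ← hη₁] at h1
    calc ‖d‖ ≤ C₃ * ‖η₁‖ := h1
      _ ≤ C₃ * (2 * M * ‖η‖) := mul_le_mul_of_nonneg_left hη₁n hC₃.le
      _ = _ := by ring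
  have hHd : ‖H (t z₀) - H (t' z₀) - d • deriv H (t' z₀)‖ ≤ C₂ * ‖d‖ ^ 2 := by
    rw [hd]
    exact hH.taylor hC₂ (hLO.t_mem z₀ hzm) htm
  -- the error
  obtain ⟨b, hb⟩ : ∃ b : ℂ, b = d / deriv t' z₀ := ⟨_, rfl⟩
  obtain ⟨e, he⟩ : ∃ e, e = H (t z₀) - G z₀ - b • D v - D η := ⟨_, rfl⟩
  have hbn : ‖b‖ ≤ 2 * C / c * ‖d‖ := by
    rw [hb, norm_div, div_le_iff₀ (norm_pos_iff.2 htne)]
    calc ‖d‖ = 2 * C / c * ‖d‖ * (c / (2 * C)) := by field_simp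
      _ ≤ 2 * C / c * ‖d‖ * ‖deriv t' z₀‖ := mul_le_mul_of_nonneg_left htl (by positivity)
  have hsplit : e = (H (t z₀) - H (t' z₀) - d • deriv H (t' z₀)) + (η₁ - D η) +
      b • deriv (fun z => H (t' z) - G z) z₀ := by
    have h1 : d • deriv H (t' z₀) = b • (deriv G z₀ + deriv (fun z => H (t' z) - G z) z₀) := by
      rw [← hchain, smul_smul, hb, div_mul_cancel₀ _ htne]
    rw [he, hDv, hη₁, h1, smul_add]
    abel
  have hen : ‖e‖ ≤ A * ε * ‖η‖ := by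
    have h1 : ‖e‖ ≤ C₂ * ‖d‖ ^ 2 + M * ‖η‖ ^ 2 + 2 * C / c * ‖d‖ * (ε / ρ₂) := by
      rw [hsplit]
      have h2 := norm_add_le ((H (t z₀) - H (t' z₀) - d • deriv H (t' z₀)) + (η₁ - D η))
        (b • deriv (fun z => H (t' z) - G z) z₀)
      have h3 := norm_add_le (H (t z₀) - H (t' z₀) - d • deriv H (t' z₀)) (η₁ - D η)
      have h4 : ‖b • deriv (fun z => H (t' z) - G z) z₀‖ ≤ 2 * C / c * ‖d‖ * (ε / ρ₂) := by
        rw [norm_smul]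
        exact mul_le_mul hbn hder (norm_nonneg _) (by positivity)
      linarith
    have h2 : ‖d‖ ^ 2 ≤ (2 * M * C₃) ^ 2 * ε * ‖η‖ := by
      have h3 : ‖d‖ ^ 2 ≤ (2 * M * C₃ * ‖η‖) ^ 2 := pow_le_pow_left₀ (norm_nonneg _) hdn 2
      have h4 : ‖η‖ ^ 2 ≤ ε * ‖η‖ := by
        rw [pow_two]
        exact mul_le_mul_of_nonneg_right hη hη0
      calc ‖d‖ ^ 2 ≤ (2 * M * C₃) ^ 2 * ‖η‖ ^ 2 := by rw [← mul_pow]; exact h3
        _ ≤ (2 * M * C₃) ^ 2 * (ε * ‖η‖) := mul_le_mul_of_nonneg_left h4 (by positivity)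
        _ = _ := by ring
    have h3 : M * ‖η‖ ^ 2 ≤ M * ε * ‖η‖ := by
      rw [pow_two, ← mul_assoc]
      exact mul_le_mul_of_nonneg_right (mul_le_mul_of_nonneg_left hη hM0.le) hη0
    have h4 : 2 * C / c * ‖d‖ * (ε / ρ₂) ≤ 2 * C / c * (2 * M * C₃ * ‖η‖) * (ε / ρ₂) := by
      have h5 : 0 ≤ ε / ρ₂ := by positivity
      exact mul_le_mul_of_nonneg_right (mul_le_mul_of_nonneg_left hdn (by positivity)) h5
    have h5 : C₂ * ‖d‖ ^ 2 ≤ C₂ * ((2 * M * C₃) ^ 2 * ε * ‖η‖) :=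
      mul_le_mul_of_nonneg_left h2 hC₂
    calc ‖e‖ ≤ C₂ * ‖d‖ ^ 2 + M * ‖η‖ ^ 2 + 2 * C / c * ‖d‖ * (ε / ρ₂) := h1
      _ ≤ C₂ * ((2 * M * C₃) ^ 2 * ε * ‖η‖) + M * ε * ‖η‖ +
          2 * C / c * (2 * M * C₃ * ‖η‖) * (ε / ρ₂) := by linarith
      _ = A * ε * ‖η‖ := by
          rw [hA]
          ring
  -- apply relative continuity at `D η`
  have hDη : ‖η‖ ≤ M * ‖D η‖ := hψ.lo η
  have h1 : ‖e‖ ≤ ε₁ * ‖D η‖ := by
    calc ‖e‖ ≤ A * ε * ‖η‖ := hen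
      _ ≤ ε₁ / M * ‖η‖ := mul_le_mul_of_nonneg_right hεA hη0
      _ ≤ ε₁ / M * (M * ‖D η‖) := mul_le_mul_of_nonneg_left hDη (by positivity)
      _ = ε₁ * ‖D η‖ := by field_simp
  have h2 : ∀ a : ℂ, c₀ / M ^ 2 * ‖D η‖ ≤ ‖D η - a • D v‖ := by
    intro a
    have h3 : ‖η - a • v‖ ≤ M * ‖D (η - a • v)‖ := hψ.lo _
    rw [map_sub, map_smul] at h3
    have h4 := htr a
    have h5 := hψ.up η
    have h6 : c₀ * ‖D η‖ ≤ M * (M * ‖D η - a • D v‖) := by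
      calc c₀ * ‖D η‖ ≤ c₀ * (M * ‖η‖) := mul_le_mul_of_nonneg_left h5 hc₀.le
        _ = M * (c₀ * ‖η‖) := by ring
        _ ≤ M * (M * ‖D η - a • D v‖) := mul_le_mul_of_nonneg_left (h4.trans h3) hM0.le
    rw [div_mul_eq_mul_div, div_le_iff₀ (by positivity)]
    calc c₀ * ‖D η‖ ≤ M * (M * ‖D η - a • D v‖) := h6
      _ = ‖D η - a • D v‖ * M ^ 2 := by ring
  have h3 := h (G z₀) hz₀ (D η) (D v) e (by rw [hDv]; exact hG.lo z₀ hzm')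
    (by rw [hDv]; exact hG.up z₀ hzm') h2 h1
  have h4 : TV T G H t z₀ = T (G z₀) (D η + e) (D v) := by
    have h5 : H (t z₀) - G z₀ = (D η + e) + b • D v := by
      rw [he]
      abel
    rw [TV, h5, ← hDv]
    exact hT.shift (hKO hz₀) b (D η + e) (D v)
  rw [h4]
  exact ⟨h3.2, h3.1⟩

end tv

end Pool.Agent.BR
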